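import Pool.Agent.PWZ.NilClo

set_option autoImplicit false

/-!
# NPK / Clo : closures for products of several functions

`CvW` : one function against bounded weights `c n x`; `CvM` : products of `m` functions.
`CvM_of_span` : from a class of functions to its closed span, in all coordinates.
-/

open Finset MeasureTheory Filter Topology
open scoped ENNReal

namespace NPK
open Pool.PWZ

variable {X : Type}

/-- almost everywhere convergence of the averages of `f (s n x) * c n x` -/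
def CvW [MeasurableSpace X] (μ : Measure X) (s : ℤ → Equiv.Perm X) (c : ℤ → X → ℂ)
    (f : X → ℂ) : Prop :=
  ∀ᵐ x ∂μ, ∃ L : ℂ, Tendsto (fun N : ℕ => cav (fun n => f (s n x) * c n x) N) atTop (𝓝 L)

/-- almost everywhere convergence of the averages of `∏ j, f j (s j n x)` -/
def CvM {m : ℕ} [MeasurableSpace X] (μ : Measure X) (s : Fin m → ℤ → Equiv.Perm X)
    (f : Fin m → X → ℂ) : Prop :=
  ∀ᵐ x ∂μ, ∃ L : ℂ, Tendsto (fun N : ℕ => cav (fun n => ∏ j, f j (s j n x)) N) atTop (𝓝 L)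

/-- **closure in the mean**, first argument -/
theorem CvW.closure [MeasurableSpace X] {μ : Measure X} {s₁ : ℤ → Equiv.Perm X}
    (hs₁ : ∀ n, MeasurePreserving ⇑(s₁ n) μ μ) (hS : Sg μ s₁)
    {f : X → ℂ} {c : ℤ → X → ℂ} (hf : Measurable f) (hfb : ∃ M : ℝ, ∀ x, ‖f x‖ ≤ M)
    (hg : ∃ M : ℝ, ∀ n x, ‖c n x‖ ≤ M)
    (hcl : ∀ ε : ℝ≥0∞, ε ≠ 0 → ∃ f' : X → ℂ, Measurable f' ∧ (∃ M : ℝ, ∀ x, ‖f' x‖ ≤ M) ∧
      ∫⁻ x, ‖f x - f' x‖ₑ ∂μ ≤ ε ∧ CvW μ s₁ c f') :
    CvW μ s₁ c f := by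
  obtain ⟨Mf, hMf⟩ := hfb
  obtain ⟨Mg', hMg'⟩ := hg
  obtain ⟨Mg, hMgpos, hMg⟩ : ∃ M : ℝ, 0 < M ∧ ∀ n x, ‖c n x‖ ≤ M :=
    ⟨max Mg' 1, lt_of_lt_of_le one_pos (le_max_right _ _),
      fun n x => (hMg' n x).trans (le_max_left _ _)⟩
  choose F hFm hFb hFi hFc using fun k : ℕ =>
    hcl (((k + 1 : ℕ) : ℝ≥0∞)⁻¹) (ENNReal.inv_ne_zero.2 (ENNReal.natCast_ne_top _))
  -- convergence of the averages of `|f - F k|`
  have hSk : ∀ᵐ x ∂μ, ∀ k : ℕ, ∃ L : ℂ, Tendsto (fun N : ℕ =>
      cav (fun n => ((‖f (s₁ n x) - F k (s₁ n x)‖ : ℝ) : ℂ)) N) atTop (𝓝 L) := by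
    rw [ae_all_iff]
    intro k
    refine hS (fun x => ((‖f x - F k x‖ : ℝ) : ℂ)) ?_ ?_
    · exact Complex.measurable_ofReal.comp (hf.sub (hFm k)).norm
    · obtain ⟨M, hM⟩ := hFb k
      refine ⟨Mf + M, fun x => ?_⟩
      rw [Complex.norm_real, norm_norm]
      exact (norm_sub_le _ _).trans (add_le_add (hMf x) (hM x))
  set u : ℕ → X → ℝ≥0∞ := fun k x => ‖f x - F k x‖ₑ with hu
  have hum : ∀ k, Measurable (u k) := fun k => (hf.sub (hFm k)).enorm
  set v : ℕ → X → ℝ≥0∞ := fun k x => liminf (fun N => eav (fun n => u k (s₁ n x)) N) atTop with hv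
  have hem : ∀ k N, Measurable fun x => eav (fun n => u k (s₁ n x)) N := fun k N =>
    measurable_eav s₁ (fun n => (hs₁ n).measurable) (u k) (hum k) N
  have hvm : ∀ k, Measurable (v k) := fun k => Measurable.liminf fun N => hem k N
  have hvi : ∀ k, ∫⁻ x, v k x ∂μ ≤ ((k + 1 : ℕ) : ℝ≥0∞)⁻¹ := by
    intro k
    calc ∫⁻ x, v k x ∂μ ≤ liminf (fun N => ∫⁻ x, eav (fun n => u k (s₁ n x)) N ∂μ) atTop :=
          lintegral_liminf_le fun N => hem k N
      _ = liminf (fun _N : ℕ => ∫⁻ x, u k x ∂μ) atTop := by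
          congr 1
          funext N
          exact lintegral_eav s₁ hs₁ (u k) (hum k) N
      _ = ∫⁻ x, u k x ∂μ := by rw [liminf_const]
      _ ≤ _ := hFi k
  have hv0 : ∀ᵐ x ∂μ, liminf (fun k => v k x) atTop = 0 := by
    have h1 : ∫⁻ x, liminf (fun k => v k x) atTop ∂μ = 0 := by
      refine le_antisymm ?_ bot_le
      calc ∫⁻ x, liminf (fun k => v k x) atTop ∂μ ≤ liminf (fun k => ∫⁻ x, v k x ∂μ) atTop :=
            lintegral_liminf_le hvm
        _ ≤ liminf (fun k : ℕ => ((k + 1 : ℕ) : ℝ≥0∞)⁻¹) atTop :=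
            liminf_le_liminf (Eventually.of_forall hvi)
        _ = 0 := by
            have h2 : Tendsto (fun k : ℕ => ((k + 1 : ℕ) : ℝ≥0∞)⁻¹) atTop (𝓝 0) :=
              ENNReal.tendsto_inv_nat_nhds_zero.comp (tendsto_add_atTop_nat 1)
            exact h2.liminf_eq
    exact (lintegral_eq_zero_iff (Measurable.liminf hvm)).1 h1
  have hFc' : ∀ᵐ x ∂μ, ∀ k : ℕ, ∃ L : ℂ,
      Tendsto (fun N : ℕ => cav (fun n => F k (s₁ n x) * c n x) N) atTop (𝓝 L) := by
    rw [ae_all_iff]; exact hFc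
  unfold CvW
  filter_upwards [hSk, hv0, hFc'] with x h1 h2 h3
  apply cauchySeq_tendsto_of_complete
  rw [Metric.cauchySeq_iff]
  intro ε hε
  have hε' : (0 : ℝ≥0∞) < ENNReal.ofReal (ε / (3 * Mg)) := by
    rw [ENNReal.ofReal_pos]; positivity
  have h4 : liminf (fun k => v k x) atTop < ENNReal.ofReal (ε / (3 * Mg)) := by rwa [h2]
  obtain ⟨k, hk⟩ := (frequently_lt_of_liminf_lt (by isBoundedDefault) h4).exists
  obtain ⟨L, hL⟩ := h1 k
  have hr : Tendsto (fun N : ℕ => rav (fun n => ‖f (s₁ n x) - F k (s₁ n x)‖) N) atTop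
      (𝓝 L.re) := by
    have h5 : Tendsto (fun N : ℕ =>
        (cav (fun n => ((‖f (s₁ n x) - F k (s₁ n x)‖ : ℝ) : ℂ)) N).re) atTop (𝓝 L.re) :=
      (Complex.continuous_re.tendsto _).comp hL
    refine h5.congr fun N => ?_
    rw [cav_ofReal, Complex.ofReal_re]
  have hvL : v k x = ENNReal.ofReal L.re := by
    have h6 : Tendsto (fun N : ℕ => eav (fun n => u k (s₁ n x)) N) atTop
        (𝓝 (ENNReal.ofReal L.re)) := by
      refine (ENNReal.tendsto_ofReal hr).congr fun N => ?_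
      rw [← eav_ofReal _ fun n => norm_nonneg _]
      congr 1
      funext n
      exact ofReal_norm _
    exact h6.liminf_eq
  rw [hvL, ENNReal.ofReal_lt_ofReal_iff (by positivity)] at hk
  have h7 : ∀ᶠ N in atTop, rav (fun n => ‖f (s₁ n x) - F k (s₁ n x)‖) N < ε / (3 * Mg) :=
    hr.eventually_lt_const hk
  obtain ⟨N1, hN1⟩ := eventually_atTop.1 h7
  obtain ⟨L', hL'⟩ := h3 k
  obtain ⟨N2, hN2⟩ := Metric.cauchySeq_iff.1 hL'.cauchySeq (ε / 3) (by positivity)
  have h8 : ∀ N ≥ N1, dist (cav (fun n => f (s₁ n x) * c n x) N)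
      (cav (fun n => F k (s₁ n x) * c n x) N) < ε / 3 := by
    intro N hN
    rw [dist_eq_norm, cav_sub]
    refine (norm_cav_le _ (fun n => ‖f (s₁ n x) - F k (s₁ n x)‖) Mg (fun n => ?_) N).trans_lt ?_
    · rw [← sub_mul, norm_mul, mul_comm]
      exact mul_le_mul_of_nonneg_right (hMg _ _) (norm_nonneg _)
    · have := hN1 N hN
      rw [lt_div_iff₀ (by positivity)] at this
      rw [lt_div_iff₀ (by norm_num)]
      linarith
  refine ⟨max N1 N2, fun m hm n hn => ?_⟩
  have a1 := h8 m ((le_max_left _ _).trans hm)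
  have a2 := h8 n ((le_max_left _ _).trans hn)
  have a3 := hN2 m ((le_max_right _ _).trans hm) n ((le_max_right _ _).trans hn)
  rw [dist_comm] at a2
  calc dist _ _ ≤ _ := dist_triangle4 _ _ _ _
    _ < ε / 3 + ε / 3 + ε / 3 := add_lt_add (add_lt_add a1 a3) a2
    _ = ε := by ring


lemma CvW.sum [MeasurableSpace X] {μ : Measure X} {s : ℤ → Equiv.Perm X} {c : ℤ → X → ℂ} {l : ℕ}
    (h : Fin l → X → ℂ) (H : ∀ i, CvW μ s c (h i)) : CvW μ s c (fun x => ∑ i, h i x) := by
  unfold CvW at H ⊢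
  have H' : ∀ᵐ x ∂μ, ∀ i, ∃ L : ℂ,
      Tendsto (fun N : ℕ => cav (fun n => h i (s n x) * c n x) N) atTop (𝓝 L) := by
    rw [ae_all_iff]; exact H
  filter_upwards [H'] with x hx
  choose L hL using hx
  refine ⟨∑ i, L i, ?_⟩
  have h2 : Tendsto (fun N : ℕ => ∑ i, cav (fun n => h i (s n x) * c n x) N) atTop
      (𝓝 (∑ i, L i)) := tendsto_finsetSum _ fun i _ => hL i
  refine h2.congr fun N => ?_
  unfold cav
  rw [← Finset.mul_sum, Finset.sum_comm]
  congr 1
  refine Finset.sum_congr rfl fun n _ => ?_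
  exact (Finset.sum_mul _ _ _).symm

lemma CvM_iff_update {m : ℕ} [MeasurableSpace X] {μ : Measure X} {s : Fin m → ℤ → Equiv.Perm X}
    (f : Fin m → X → ℂ) (j : Fin m) (h : X → ℂ) :
    CvM μ s (Function.update f j h) ↔
      CvW μ (s j) (fun n x => ∏ i ∈ univ.erase j, f i (s i n x)) h := by
  have e : ∀ (n : ℤ) (x : X), ∏ i, Function.update f j h i (s i n x) =
      h (s j n x) * ∏ i ∈ univ.erase j, f i (s i n x) := by
    intro n x
    rw [← Finset.mul_prod_erase univ _ (Finset.mem_univ j), Function.update_self]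
    congr 1
    refine Finset.prod_congr rfl fun i hi => ?_
    rw [Function.update_of_ne (Finset.ne_of_mem_erase hi)]
  unfold CvM CvW
  simp only [e]

lemma CvM.congr {m : ℕ} [MeasurableSpace X] {μ : Measure X} {s : Fin m → ℤ → Equiv.Perm X}
    (hs : ∀ j n, MeasurePreserving ⇑(s j n) μ μ) {f g : Fin m → X → ℂ} (h : CvM μ s f)
    (hfg : ∀ j, ∀ᵐ x ∂μ, g j x = f j x) : CvM μ s g := by
  have h1 : ∀ᵐ x ∂μ, ∀ j n, g j (s j n x) = f j (s j n x) := by
    rw [ae_all_iff]; intro j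
    rw [ae_all_iff]; exact fun n => (hs j n).quasiMeasurePreserving.ae (hfg j)
  unfold CvM at h ⊢
  filter_upwards [h, h1] with x hx e
  simp only [e]
  exact hx

/-- from a class of functions to its closed span -/
theorem CvM_of_span {m : ℕ} [MeasurableSpace X] {μ : Measure X} {s : Fin m → ℤ → Equiv.Perm X}
    (hs : ∀ j n, MeasurePreserving ⇑(s j n) μ μ) (hS : ∀ j, Sg μ (s j))
    (Ex : Fin m → (X → ℂ) → Prop)
    (hEx : ∀ j h, Ex j h → Measurable h ∧ ∃ M : ℝ, ∀ x, ‖h x‖ ≤ M)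
    (H : ∀ h : Fin m → X → ℂ, (∀ j, Ex j (h j)) → CvM μ s h) (A : Finset (Fin m)) :
    ∀ f : Fin m → X → ℂ, (∀ j, Measurable (f j)) → (∀ j, ∃ M : ℝ, ∀ x, ‖f j x‖ ≤ M) →
      (∀ j ∉ A, Ex j (f j)) →
      (∀ j ∈ A, ∀ ε : ℝ≥0∞, ε ≠ 0 → ∃ (l : ℕ) (h : Fin l → X → ℂ), (∀ i, Ex j (h i)) ∧
        ∫⁻ x, ‖f j x - ∑ i, h i x‖ₑ ∂μ ≤ ε) → CvM μ s f := by
  induction A using Finset.induction_on with
  | empty =>
    intro f _ _ h1 _
    exact H f fun j => h1 j (Finset.notMem_empty j)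
  | insert a A ha ih =>
    intro f hm hb h1 h2
    have e0 : Function.update f a (f a) = f := Function.update_eq_self a f
    rw [← e0, CvM_iff_update]
    refine CvW.closure (hs a) (hS a) (hm a) (hb a) ?_ fun ε hε => ?_
    · choose M hM using hb
      refine ⟨∏ i ∈ univ.erase a, M i, fun n x => ?_⟩
      rw [norm_prod]
      exact Finset.prod_le_prod (fun i _ => norm_nonneg _) fun i _ => hM i _
    · obtain ⟨l, h, h3, h4⟩ := h2 a (Finset.mem_insert_self a A) ε hε
      refine ⟨fun x => ∑ i, h i x, ?_, ?_, h4, ?_⟩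
      · exact Finset.measurable_fun_sum _ fun i _ => (hEx a _ (h3 i)).1
      · choose M hM using fun i => (hEx a _ (h3 i)).2
        exact ⟨∑ i, M i, fun x => (norm_sum_le _ _).trans (Finset.sum_le_sum fun i _ => hM i x)⟩
      · refine CvW.sum h fun i => ?_
        rw [← CvM_iff_update]
        refine ih (Function.update f a (h i)) (fun j => ?_) (fun j => ?_) (fun j hj => ?_)
          (fun j hj => ?_)
        · by_cases hja : j = a
          · subst hja
            rw [Function.update_self]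
            exact (hEx j _ (h3 i)).1
          · rw [Function.update_of_ne hja]
            exact hm j
        · by_cases hja : j = a
          · subst hja
            rw [Function.update_self]
            exact (hEx j _ (h3 i)).2
          · rw [Function.update_of_ne hja]
            exact hb j
        · by_cases hja : j = a
          · subst hja
            rw [Function.update_self]
            exact h3 i
          · rw [Function.update_of_ne hja]
            exact h1 j fun h5 => (Finset.mem_insert.1 h5).elim hja hj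
        · have hja : j ≠ a := fun h5 => ha (h5 ▸ hj)
          rw [Function.update_of_ne hja]
          exact h2 j (Finset.mem_insert_of_mem hj)

end NPK
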