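import Pool.Agent.NPK.Phs

set_option autoImplicit false

/-!
# NPK / Phs2 : measurable version of Phs, with a uniform bound for the degree
-/

namespace NPK
open Pool.Nil

noncomputable section

/-- argument of a complex number, in the circle -/
def ag (z : ℂ) : UnitAddCircle := ((Complex.arg z / (2 * Real.pi) : ℝ) : UnitAddCircle)

lemma toCircle_ag {z : ℂ} (hz : ‖z‖ = 1) : (AddCircle.toCircle (ag z) : ℂ) = z := by
  unfold ag
  rw [AddCircle.toCircle_apply_mk]
  have e : 2 * Real.pi / 1 * (Complex.arg z / (2 * Real.pi)) = Complex.arg z := by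
    field_simp
  rw [e, Circle.coe_exp]
  have h := Complex.norm_mul_exp_arg_mul_I z
  rwa [hz, Complex.ofReal_one, one_mul] at h

lemma measurable_ag : Measurable ag :=
  AddCircle.measurable_mk'.comp (Complex.measurable_arg.div_const _)

variable {G : Type} [Group G]

theorem phase_of_char2 [Group.IsNilpotent G] {d : ℕ} (T : Fin d → G) (P : Fin d → Polynomial ℤ)
    (V : G) (N : Subgroup G) (hν : ∀ n : ℤ, V ^ (-n) * pseq T P n ∈ N) :
    ∃ k : ℕ, ∀ χ : G → ℂ, (∀ ν ∈ N, ‖χ ν‖ = 1) →
      (∀ a ∈ N, ∀ b ∈ N, χ (a * b) = χ a * χ b) →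
      df^[k] (fun n => ag (χ (V ^ (-n) * pseq T P n))) = 0 := by
  set g : ℤ → G := fun n => V ^ (-n) * pseq T P n with hg
  set p := max 1 (Finset.univ.sup fun i => (P i).natDegree) with hp
  have hPp : ∀ i, (P i).natDegree ≤ p := fun i =>
    (Finset.le_sup (f := fun i => (P i).natDegree) (Finset.mem_univ i)).trans (le_max_right _ _)
  have hV : IsSeq (Pool.Lib.PolySeq.lcF G p) 0 (fun n : ℤ => V ^ (-n)) := by
    have h3 := NilSeq.isSeq_pseq (NilSeq.filt_lcF (G := G) p) (NilSeq.lcF_self p)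
      (fun _ : Fin 1 => V) (fun _ : Fin 1 => -Polynomial.X) (fun i => by
        rw [Polynomial.natDegree_neg, Polynomial.natDegree_X]
        exact le_max_left _ _)
    have e : pseq (fun _ : Fin 1 => V) (fun _ : Fin 1 => (-Polynomial.X : Polynomial ℤ)) =
        fun n : ℤ => V ^ (-n) := by
      funext n
      simp [pseq]
    rwa [e] at h3
  have hs : IsSeq (Pool.Lib.PolySeq.lcF G p) 0 g :=
    hV.mul (NilSeq.filt_lcF p)
      (NilSeq.isSeq_pseq (NilSeq.filt_lcF (G := G) p) (NilSeq.lcF_self p) T P hPp)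
  refine ⟨(p + 1) * 2 ^ Group.nilpotencyClass G, fun χ h1 h2 => ?_⟩
  have hψ : ∀ ν ∈ N, (AddCircle.toCircle (ag (χ ν)) : ℂ) = χ ν := fun ν hν => toCircle_ag (h1 ν hν)
  have hinj : Function.Injective (AddCircle.toCircle : UnitAddCircle → Circle) :=
    AddCircle.injective_toCircle one_ne_zero
  have hmul : ∀ a ∈ N, ∀ b ∈ N, ag (χ (a * b)) = ag (χ a) + ag (χ b) := by
    intro a ha b hb
    apply hinj
    apply Subtype.ext
    rw [AddCircle.toCircle_add, Circle.coe_mul, hψ a ha, hψ b hb, hψ _ (N.mul_mem ha hb),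
      h2 a ha b hb]
  have hone : ag (χ 1) = 0 := by
    have := hmul 1 N.one_mem 1 N.one_mem
    rw [mul_one] at this
    exact left_eq_add.1 this
  have hdiv : ∀ a ∈ N, ∀ b ∈ N, ag (χ (a⁻¹ * b)) = ag (χ b) - ag (χ a) := by
    intro a ha b hb
    have h3 := hmul a ha (a⁻¹ * b) (N.mul_mem (N.inv_mem ha) hb)
    rw [mul_inv_cancel_left] at h3
    rw [h3, add_sub_cancel_left]
  have hiter : ∀ a : ℕ, df^[a] (fun n => ag (χ (g n))) = fun n => ag (χ (dz^[a] g n)) := by
    intro a
    induction a with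
    | zero => rfl
    | succ a ih =>
      rw [Function.iterate_succ_apply', ih, Function.iterate_succ_apply']
      funext n
      exact (hdiv _ (dz_iter_mem hν a n) _ (dz_iter_mem hν a (n + 1))).symm
  rw [hiter]
  funext n
  have h4 := (isSeq_iter hs ((p + 1) * 2 ^ Group.nilpotencyClass G)).val n
  rw [zero_add, NilSeq.lcF_bot, Subgroup.mem_bot] at h4
  rw [h4, hone]
  rfl

end

end NPK
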