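import Pool.Agent.NPK.Fac
import Pool.Agent.NPK.Phs2
import Pool.Agent.PWZ.NilGrp

set_option autoImplicit false

/-!
# NPK / Deg : degrees of the phases
-/

open Finset
open scoped commutatorElement

namespace NPK
open Pool.PWZ

noncomputable section

variable {H : Type} [Group H]

section psi
variable {N : Subgroup H} {ψ : H → UnitAddCircle} (hψ : ∀ a ∈ N, ∀ b ∈ N, ψ (a * b) = ψ a + ψ b)
include hψ

lemma psi_one : ψ 1 = 0 := by
  have := hψ 1 N.one_mem 1 N.one_mem
  rw [mul_one] at this
  exact left_eq_add.1 this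

lemma psi_inv {a : H} (ha : a ∈ N) : ψ a⁻¹ = -ψ a := by
  have h1 := hψ a ha a⁻¹ (N.inv_mem ha)
  rw [mul_inv_cancel, psi_one hψ] at h1
  exact eq_neg_of_add_eq_zero_right h1.symm

lemma psi_zpow {a : H} (ha : a ∈ N) (n : ℤ) : ψ (a ^ n) = n • ψ a := by
  induction n using Int.induction_on with
  | zero => rw [zpow_zero, zero_smul, psi_one hψ]
  | succ n ih => rw [zpow_add_one, hψ _ (N.zpow_mem ha _) _ ha, ih, add_smul, one_smul]
  | pred n ih =>
    rw [zpow_sub_one, hψ _ (N.zpow_mem ha _) _ (N.inv_mem ha), ih, psi_inv hψ ha, sub_smul,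
      one_smul, sub_eq_add_neg]

lemma psi_list (L : List H) (hL : ∀ a ∈ L, a ∈ N) : ψ L.prod = (L.map ψ).sum := by
  induction L with
  | nil => rw [List.prod_nil, List.map_nil, List.sum_nil, psi_one hψ]
  | cons a L ih =>
    have h1 : ∀ b ∈ L, b ∈ N := fun b hb => hL b (List.mem_cons_of_mem a hb)
    rw [List.prod_cons, List.map_cons, List.sum_cons,
      hψ a (hL a List.mem_cons_self) _ (N.list_prod_mem h1), ih h1]

end psi

lemma df_poly (P : Polynomial ℤ) (c : UnitAddCircle) (a : ℕ) :
    df^[a] (fun n : ℤ => P.eval n • c) = fun n => ((fwdDiff (1 : ℤ))^[a] P.eval n) • c := by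
  induction a with
  | zero => rfl
  | succ a ih =>
    rw [Function.iterate_succ_apply', Function.iterate_succ_apply', ih]
    funext n
    show (fwdDiff (1 : ℤ))^[a] P.eval (n + 1) • c - (fwdDiff (1 : ℤ))^[a] P.eval n • c = _
    rw [← sub_smul]
    rfl

lemma df_poly_zero {P : Polynomial ℤ} {k : ℕ} (hP : P.natDegree < k) (c : UnitAddCircle) :
    df^[k] (fun n : ℤ => P.eval n • c) = 0 := by
  rw [df_poly, Polynomial.fwdDiff_iter_eq_zero_of_degree_lt hP]
  funext n
  exact zero_smul ℤ c

lemma df_sum_zero {ι : Type} (t : Finset ι) (Φ : ι → ℤ → UnitAddCircle) (k : ℕ)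
    (h : ∀ i ∈ t, df^[k] (Φ i) = 0) : df^[k] (fun n => ∑ i ∈ t, Φ i n) = 0 := by
  classical
  induction t using Finset.induction_on with
  | empty =>
    simp only [Finset.sum_empty]
    exact df_iter_zero_of_le (k := 0) rfl (Nat.zero_le _)
  | insert a t ha ih =>
    have e : (fun n => ∑ i ∈ insert a t, Φ i n) = Φ a + fun n => ∑ i ∈ t, Φ i n := by
      funext n
      rw [Finset.sum_insert ha]
      rfl
    rw [e, df_iter_add, h a (Finset.mem_insert_self a t),
      ih fun i hi => h i (Finset.mem_insert_of_mem hi), add_zero]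

/-- sequences with values in `N` -/
theorem deg_K {N : Subgroup H} {ψ : H → UnitAddCircle}
    (hψ : ∀ a ∈ N, ∀ b ∈ N, ψ (a * b) = ψ a + ψ b) {d : ℕ} (T : Fin d → H)
    (P : Fin d → Polynomial ℤ) (hN : ∀ i, P i ≠ 0 → T i ∈ N) {k : ℕ}
    (hP : ∀ i, (P i).natDegree < k) :
    df^[k] (fun n : ℤ => ψ (List.ofFn fun i => T i ^ (P i).eval n).prod) = 0 := by
  have hmem : ∀ (n : ℤ) (i : Fin d), T i ^ (P i).eval n ∈ N := by
    intro n i
    by_cases h : P i = 0
    · rw [h, Polynomial.eval_zero, zpow_zero]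
      exact N.one_mem
    · exact N.zpow_mem (hN i h) _
  have e : (fun n : ℤ => ψ (List.ofFn fun i => T i ^ (P i).eval n).prod) =
      fun n => ∑ i : Fin d, (P i).eval n • ψ (T i) := by
    funext n
    rw [psi_list hψ _ (fun a ha => by
      rw [List.mem_ofFn] at ha
      obtain ⟨i, rfl⟩ := ha
      exact hmem n i), List.map_ofFn, List.sum_ofFn]
    refine Finset.sum_congr rfl fun i _ => ?_
    simp only [Function.comp_apply]
    by_cases h : P i = 0
    · rw [h, Polynomial.eval_zero, zpow_zero, zero_smul, psi_one hψ]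
    · exact psi_zpow hψ (hN i h) _
  rw [e]
  exact df_sum_zero _ _ k fun i _ => df_poly_zero (hP i) _

lemma df_tri (c : UnitAddCircle) : df^[3] (fun n : ℤ => tri n • c) = 0 := by
  have h1 : df (fun n : ℤ => tri n • c) = fun n => n • c := by
    funext n
    show tri (n + 1) • c - tri n • c = n • c
    rw [tri_succ, add_smul, add_sub_cancel_left]
  have h2 : df (fun n : ℤ => n • c) = fun _ => c := by
    funext n
    show (n + 1) • c - n • c = c
    rw [add_smul, one_smul, add_sub_cancel_left]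
  have h3 : df (fun _ : ℤ => c) = 0 := by
    funext n
    exact sub_self c
  show df (df (df _)) = 0
  rw [h1, h2, h3]

/-- linear sequences, functions on the commutator subgroup -/
theorem deg_E {ψ : H → UnitAddCircle}
    (hψ : ∀ a ∈ commutator H, ∀ b ∈ commutator H, ψ (a * b) = ψ a + ψ b)
    (hc : ∀ γ : H, ∀ ν ∈ commutator H, ψ (γ * ν * γ⁻¹) = ψ ν) (L : List H) :
    df^[3] (fun n : ℤ => ψ (L.prod ^ (-n) * (L.map fun A => A ^ n).prod)) = 0 := by
  have hlow : low3 H ≤ commutator H := by
    unfold low3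
    exact Subgroup.commutator_mono le_top le_top
  have hκ : ∀ κ ∈ low3 H, ψ κ = 0 := by
    intro κ hκ
    have hκ' := hκ
    unfold low3 at hκ
    rw [Subgroup.commutator_def] at hκ
    induction hκ using Subgroup.closure_induction with
    | mem κ hκ =>
      obtain ⟨δ, _, ν, hν, rfl⟩ := hκ
      have h1 : δ * ν * δ⁻¹ ∈ commutator H :=
        (Subgroup.commutator_normal (⊤ : Subgroup H) ⊤).conj_mem ν hν δ
      rw [commutatorElement_def, hψ _ h1 _ (Subgroup.inv_mem _ hν), hc δ ν hν,
        psi_inv hψ hν, add_neg_cancel]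
    | one => exact psi_one hψ
    | mul a b ha hb iha ihb =>
      have ha' : a ∈ low3 H := by
        unfold low3
        rw [Subgroup.commutator_def]
        exact ha
      have hb' : b ∈ low3 H := by
        unfold low3
        rw [Subgroup.commutator_def]
        exact hb
      rw [hψ a (hlow ha') b (hlow hb'), iha ha', ihb hb', add_zero]
    | inv a ha iha =>
      have ha' : a ∈ low3 H := by
        unfold low3
        rw [Subgroup.commutator_def]
        exact ha
      rw [psi_inv hψ (hlow ha'), iha ha', neg_zero]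
  obtain ⟨c, hcm, hcn⟩ := list_zpow L
  have e : (fun n : ℤ => ψ (L.prod ^ (-n) * (L.map fun A => A ^ n).prod)) =
      fun n => tri n • ψ c := by
    funext n
    obtain ⟨κ, hk, h1⟩ := hcn n
    rw [h1, ← mul_assoc, ← mul_assoc, ← zpow_add, neg_add_cancel, zpow_zero, one_mul,
      hψ _ (Subgroup.zpow_mem _ hcm _) _ (hlow hk), hκ κ hk, add_zero, psi_zpow hψ hcm]
  rw [e]
  exact df_tri _

/-- the argument of a multiplicative function -/
lemma ag_hom {N : Subgroup H} {χ : H → ℂ} (h1 : ∀ ν ∈ N, ‖χ ν‖ = 1)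
    (h2 : ∀ a ∈ N, ∀ b ∈ N, χ (a * b) = χ a * χ b) :
    ∀ a ∈ N, ∀ b ∈ N, ag (χ (a * b)) = ag (χ a) + ag (χ b) := by
  intro a ha b hb
  have hinj : Function.Injective (AddCircle.toCircle : UnitAddCircle → Circle) :=
    AddCircle.injective_toCircle one_ne_zero
  apply hinj
  apply Subtype.ext
  rw [AddCircle.toCircle_add, Circle.coe_mul, toCircle_ag (h1 a ha), toCircle_ag (h1 b hb),
    toCircle_ag (h1 _ (N.mul_mem ha hb)), h2 a ha b hb]

end

end NPK
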