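import Pool.Agent.NPK.Phs2
import Pool.Agent.NP2.Fin3

set_option autoImplicit false

/-!
# NPK / Ev2 : everywhere version of functions on which a normal subgroup acts by invariant functions
-/

open Finset MeasureTheory Filter Topology
open scoped ENNReal

namespace NPK
open Pool.PWZ NP2

noncomputable section

variable {X : Type}

/-- `h` behaves along `s` like an arbitrary function along the powers of `V`: a subgroup `N` of
`G`, normalised by `G`, with `V ^ (-n) * s n ∈ N` for all `n` acts on `h` by unimodular functions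
`χ ν` which are invariant under `G` -/
def EigV2 [MeasurableSpace X] (μ : Measure X) (G : Subgroup (Equiv.Perm X))
    (s : ℤ → Equiv.Perm X) (V : Equiv.Perm X) (h : X → ℂ) : Prop :=
  MemLp h ∞ μ ∧ ∃ N : Subgroup (Equiv.Perm X), N ≤ G ∧
    (∀ γ ∈ G, ∀ ν ∈ N, γ * ν * γ⁻¹ ∈ N) ∧ (∀ n : ℤ, V ^ (-n) * s n ∈ N) ∧
    ∃ χ : Equiv.Perm X → X → ℂ,
      (∀ ν ∈ N, Measurable (χ ν)) ∧
      (∀ ν ∈ N, ∀ᵐ x ∂μ, ‖χ ν x‖ = 1) ∧
      (∀ γ ∈ G, ∀ ν ∈ N, ∀ᵐ x ∂μ, χ ν (γ x) = χ ν x) ∧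
      (∀ γ ∈ G, ∀ ν ∈ N, ∀ᵐ x ∂μ, χ (γ * ν * γ⁻¹) x = χ ν x) ∧
      ∀ ν ∈ N, ∀ᵐ x ∂μ, h (ν x) = χ ν x * h x

/-- everywhere version -/
def Ex2 [MeasurableSpace X] (G : Subgroup (Equiv.Perm X)) (s : ℤ → Equiv.Perm X)
    (𝒱 : Set (Equiv.Perm X)) (h : X → ℂ) : Prop :=
  Measurable h ∧ (∃ M : ℝ, ∀ x, ‖h x‖ ≤ M) ∧ ∃ V ∈ 𝒱, V ∈ G ∧
    ∃ (Φ : ℤ → X → UnitAddCircle) (k : ℕ), (∀ n, Measurable (Φ n)) ∧
      (∀ γ ∈ G, ∀ n x, Φ n (γ x) = Φ n x) ∧ (∀ x, df^[k] (fun n => Φ n x) = 0) ∧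
      ∀ (n : ℤ) (y : X), h (s n y) = (AddCircle.toCircle (Φ n y) : ℂ) * h ((V ^ n) y)

/-- the sequences -/
def sq {d : ℕ} (T : Fin d → Equiv.Perm X) (P : Fin d → Polynomial ℤ) (n : ℤ) : Equiv.Perm X :=
  (List.ofFn fun i : Fin d => T i ^ (P i).eval n).prod

lemma sq_mem {d : ℕ} (T : Fin d → Equiv.Perm X) (P : Fin d → Polynomial ℤ) (n : ℤ) :
    sq T P n ∈ Subgroup.closure (Set.range T) := by
  refine Subgroup.list_prod_mem _ fun g hg => ?_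
  rw [List.mem_ofFn] at hg
  obtain ⟨i, rfl⟩ := hg
  have hTi : T i ∈ Subgroup.closure (Set.range T) := Subgroup.subset_closure ⟨i, rfl⟩
  exact Subgroup.zpow_mem _ hTi _

/-- invariant sets of full measure -/
lemma inv_set [MeasurableSpace X] {μ : Measure X} {G : Subgroup (Equiv.Perm X)} [Countable G]
    (hG : ∀ γ ∈ G, MP2 μ γ) {p : X → Prop} (hp : ∀ᵐ x ∂μ, p x) :
    ∃ E : Set X, MeasurableSet E ∧ (∀ᵐ x ∂μ, x ∈ E) ∧
      (∀ γ ∈ G, ∀ x, γ x ∈ E ↔ x ∈ E) ∧ ∀ x ∈ E, p x := by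
  obtain ⟨B, hB1, hB2, hB3⟩ := exists_measurable_superset_of_null (ae_iff.1 hp)
  have hA : ∀ᵐ x ∂μ, x ∈ Bᶜ := by
    rw [ae_iff]
    simpa using hB3
  refine ⟨{x | ∀ γ : G, (γ : Equiv.Perm X) x ∈ Bᶜ}, ?_, ?_, ?_, ?_⟩
  · rw [Set.ofPred_forall]
    exact MeasurableSet.iInter fun γ => (hG γ γ.2).1.measurable hB2.compl
  · simp only [Set.mem_ofPred_eq]
    rw [ae_all_iff]
    exact fun γ => (hG γ γ.2).1.quasiMeasurePreserving.ae hA
  · have h1 : ∀ γ ∈ G, ∀ x, x ∈ {x | ∀ γ : G, (γ : Equiv.Perm X) x ∈ Bᶜ} →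
        γ x ∈ {x | ∀ γ : G, (γ : Equiv.Perm X) x ∈ Bᶜ} := by
      intro γ hγ x hx δ
      have := hx (δ * ⟨γ, hγ⟩)
      rwa [Subgroup.coe_mul, Equiv.Perm.mul_apply] at this
    intro γ hγ x
    constructor
    · intro hx
      have := h1 γ⁻¹ (G.inv_mem hγ) _ hx
      rwa [← Equiv.Perm.mul_apply, inv_mul_cancel, Equiv.Perm.one_apply] at this
    · exact h1 γ hγ x
  · intro x hx
    have h2 := hx 1
    rw [Subgroup.coe_one, Equiv.Perm.one_apply] at h2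
    by_contra h3
    exact h2 (hB1 h3)

theorem ex_of_eigV2 [MeasurableSpace X] {μ : Measure X} {d : ℕ} (T : Fin d → Equiv.Perm X)
    (hT : ∀ i, MP2 μ (T i)) (hnil : Group.IsNilpotent (Subgroup.closure (Set.range T)))
    (P : Fin d → Polynomial ℤ) {𝒱 : Set (Equiv.Perm X)} {V : Equiv.Perm X} (hV : V ∈ 𝒱)
    {h : X → ℂ} (H : EigV2 μ (Subgroup.closure (Set.range T)) (sq T P) V h) :
    ∃ h' : X → ℂ, Ex2 (Subgroup.closure (Set.range T)) (sq T P) 𝒱 h' ∧ ∀ᵐ x ∂μ, h x = h' x := by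
  classical
  have hsq := sq_mem T P
  obtain ⟨G, hG⟩ : ∃ G, G = Subgroup.closure (Set.range T) := ⟨_, rfl⟩
  have hcount : Countable G := hG ▸ countable_closure T
  have hGm : ∀ γ ∈ G, MP2 μ γ := hG ▸ mp2_closure T hT
  have hTG : ∀ i, T i ∈ G := fun i => hG ▸ Subgroup.subset_closure ⟨i, rfl⟩
  rw [← hG] at H hnil hsq ⊢
  obtain ⟨hm, N, hN1, hN2, hN3, χ, c0, c1, c2, c3, c4⟩ := H
  have hVG : V ∈ G := by
    have e1 := hN1 (hN3 1)
    have e2 := G.mul_mem (hsq 1) (G.inv_mem e1)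
    have e3 : sq T P 1 * (V ^ (-(1 : ℤ)) * sq T P 1)⁻¹ = V := by
      rw [zpow_neg_one, mul_inv_rev, inv_inv, mul_inv_cancel_left]
    rwa [e3] at e2
  obtain ⟨M, f, hM, hfm, hfe, hfb⟩ := exists_bdd μ h hm
  -- the good set
  have hp : ∀ᵐ x ∂μ, ‖f x‖ ≤ M ∧ h x = f x ∧ ∀ ν : G, (ν : Equiv.Perm X) ∈ N →
      f ((ν : Equiv.Perm X) x) = χ ν x * f x ∧ ‖χ ν x‖ = 1 ∧
      ∀ δ : G, χ ν ((δ : Equiv.Perm X) x) = χ ν x ∧
        χ ((δ : Equiv.Perm X) * ν * (δ : Equiv.Perm X)⁻¹) x = χ ν x := by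
    have d1 : ∀ᵐ x ∂μ, ∀ ν : G, h ((ν : Equiv.Perm X) x) = f ((ν : Equiv.Perm X) x) := by
      rw [ae_all_iff]
      exact fun ν => (hGm ν ν.2).1.quasiMeasurePreserving.ae hfe
    have d2 : ∀ᵐ x ∂μ, ∀ ν : G, (ν : Equiv.Perm X) ∈ N →
        h ((ν : Equiv.Perm X) x) = χ ν x * h x ∧ ‖χ ν x‖ = 1 := by
      rw [ae_all_iff]
      intro ν
      by_cases hν : (ν : Equiv.Perm X) ∈ N
      · filter_upwards [c4 ν hν, c1 ν hν] with x h1 h2 _
        exact ⟨h1, h2⟩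
      · exact Eventually.of_forall fun x h1 => absurd h1 hν
    have d3 : ∀ᵐ x ∂μ, ∀ ν δ : G, (ν : Equiv.Perm X) ∈ N →
        χ ν ((δ : Equiv.Perm X) x) = χ ν x ∧
        χ ((δ : Equiv.Perm X) * ν * (δ : Equiv.Perm X)⁻¹) x = χ ν x := by
      rw [ae_all_iff]
      intro ν
      rw [ae_all_iff]
      intro δ
      by_cases hν : (ν : Equiv.Perm X) ∈ N
      · filter_upwards [c2 δ δ.2 ν hν, c3 δ δ.2 ν hν] with x h1 h2 _
        exact ⟨h1, h2⟩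
      · exact Eventually.of_forall fun x h1 => absurd h1 hν
    filter_upwards [hfe, hfb, d1, d2, d3] with x e1 e2 e3 e4 e5
    refine ⟨e2, e1, fun ν hν => ⟨?_, (e4 ν hν).2, fun δ => e5 ν δ hν⟩⟩
    rw [← e3, (e4 ν hν).1, e1]
  obtain ⟨E, hEm, hEae, hEinv, hEp⟩ := inv_set hGm hp
  -- action of `N` along the orbits
  have F1 : ∀ x ∈ E, ∀ γ : G, ∀ ν : G, (ν : Equiv.Perm X) ∈ N →
      f ((γ : Equiv.Perm X) ((ν : Equiv.Perm X) x)) = χ ν x * f ((γ : Equiv.Perm X) x) := by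
    intro x hx γ ν hν
    have hx2 : (γ : Equiv.Perm X) x ∈ E := (hEinv γ γ.2 x).2 hx
    have hν2 : ((γ * ν * γ⁻¹ : G) : Equiv.Perm X) ∈ N := hN2 γ γ.2 ν hν
    have e1 := ((hEp _ hx2).2.2 (γ * ν * γ⁻¹) hν2).1
    have e2 : ((γ * ν * γ⁻¹ : G) : Equiv.Perm X) ((γ : Equiv.Perm X) x) =
        (γ : Equiv.Perm X) ((ν : Equiv.Perm X) x) := by
      rw [← Equiv.Perm.mul_apply, ← Equiv.Perm.mul_apply, ← Subgroup.coe_mul, ← Subgroup.coe_mul,
        inv_mul_cancel_right]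
    have e3 := (((hEp _ hx2).2.2 ν hν).2.2 γ).2
    have e4 := (((hEp _ hx).2.2 ν hν).2.2 γ).1
    rw [e2] at e1
    rw [e1]
    have e5 : χ ((γ * ν * γ⁻¹ : G) : Equiv.Perm X) ((γ : Equiv.Perm X) x) = χ ν x :=
      e3.trans e4
    rw [e5]
  obtain ⟨E', hE'⟩ : ∃ E' : Set X, E' = E ∩ {x | ∃ γ : G, f ((γ : Equiv.Perm X) x) ≠ 0} :=
    ⟨_, rfl⟩
  have hE'm : MeasurableSet E' := by
    rw [hE', Set.ofPred_exists]
    refine hEm.inter (MeasurableSet.iUnion fun γ => ?_)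
    exact (hfm.comp (hGm γ γ.2).1.measurable) (measurableSet_singleton (0 : ℂ)).compl
  have hE'inv : ∀ γ ∈ G, ∀ x, γ x ∈ E' ↔ x ∈ E' := by
    intro γ hγ x
    rw [hE']
    constructor
    · rintro ⟨h1, δ, h2⟩
      refine ⟨(hEinv γ hγ x).1 h1, δ * ⟨γ, hγ⟩, ?_⟩
      rw [Subgroup.coe_mul, Equiv.Perm.mul_apply]
      exact h2
    · rintro ⟨h1, δ, h2⟩
      refine ⟨(hEinv γ hγ x).2 h1, δ * ⟨γ, hγ⟩⁻¹, ?_⟩
      rw [← Equiv.Perm.mul_apply]
      have e : ((δ * ⟨γ, hγ⟩⁻¹ : G) : Equiv.Perm X) * γ = δ := by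
        rw [Subgroup.coe_mul, Subgroup.coe_inv, inv_mul_cancel_right]
      rw [e]
      exact h2
  have hmul : ∀ x ∈ E', ∀ a ∈ N.subgroupOf G, ∀ b ∈ N.subgroupOf G,
      χ ((a * b : G) : Equiv.Perm X) x = χ a x * χ b x := by
    intro x hx a ha b hb
    rw [Subgroup.mem_subgroupOf] at ha hb
    rw [hE'] at hx
    obtain ⟨hx, γ, hγ⟩ := hx
    have e1 := F1 x hx γ (a * b) (by rw [Subgroup.coe_mul]; exact N.mul_mem ha hb)
    have e2 := F1 x hx (γ * a) b hb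
    have e3 := F1 x hx γ a ha
    rw [Subgroup.coe_mul, Equiv.Perm.mul_apply, Equiv.Perm.mul_apply] at e2
    rw [Subgroup.coe_mul, Equiv.Perm.mul_apply] at e1
    rw [e2, e3, ← mul_assoc] at e1
    rw [Subgroup.coe_mul, ← mul_right_cancel₀ hγ e1, mul_comm]
  obtain ⟨T', hT'⟩ : ∃ T' : Fin d → G, ∀ i, (T' i : Equiv.Perm X) = T i :=
    ⟨fun i => ⟨T i, hTG i⟩, fun i => rfl⟩
  have hps : ∀ n : ℤ, ((Pool.Nil.pseq T' P n : G) : Equiv.Perm X) = sq T P n := by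
    intro n
    unfold Pool.Nil.pseq sq
    rw [Subgroup.val_list_prod, List.map_ofFn]
    congr 2
    funext i
    simp only [Function.comp_apply, Subgroup.coe_zpow, hT']
  have hcoe : ∀ n : ℤ, ((((⟨V, hVG⟩ : G) ^ (-n) * Pool.Nil.pseq T' P n : G)) : Equiv.Perm X) =
      V ^ (-n) * sq T P n := by
    intro n
    rw [Subgroup.coe_mul, hps, Subgroup.coe_zpow]
  have hmem : ∀ n : ℤ, (⟨V, hVG⟩ : G) ^ (-n) * Pool.Nil.pseq T' P n ∈ N.subgroupOf G := by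
    intro n
    rw [Subgroup.mem_subgroupOf, hcoe]
    exact hN3 n
  have := hnil
  obtain ⟨k, hk⟩ := phase_of_char2 T' P (⟨V, hVG⟩ : G) (N.subgroupOf G) hmem
  refine ⟨E.indicator f, ⟨hfm.indicator hEm, ⟨M, fun x => ?_⟩, V, hV, hVG,
    fun n x => if x ∈ E' then ag (χ (V ^ (-n) * sq T P n) x) else 0, k, fun n => ?_,
    fun γ hγ n x => ?_, fun x => ?_, fun n y => ?_⟩, ?_⟩
  · by_cases hx : x ∈ E
    · rw [Set.indicator_of_mem hx]
      exact (hEp x hx).1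
    · rw [Set.indicator_of_notMem hx, norm_zero]
      exact hM.le
  · exact Measurable.ite hE'm (measurable_ag.comp (c0 _ (hN3 n))) measurable_const
  · by_cases hx : x ∈ E'
    · have hx1 : x ∈ E := by
        rw [hE'] at hx
        exact hx.1
      have hx2 : γ x ∈ E' := (hE'inv γ hγ x).2 hx
      have e1 : χ (V ^ (-n) * sq T P n) (γ x) = χ (V ^ (-n) * sq T P n) x :=
        (((hEp _ hx1).2.2 ⟨_, hN1 (hN3 n)⟩ (hN3 n)).2.2 ⟨γ, hγ⟩).1
      simp only [if_pos hx, if_pos hx2, e1]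
    · have hx2 : γ x ∉ E' := fun h1 => hx ((hE'inv γ hγ x).1 h1)
      simp only [if_neg hx, if_neg hx2]
  · by_cases hx : x ∈ E'
    · have hx1 : x ∈ E := by
        rw [hE'] at hx
        exact hx.1
      have e1 := hk (fun g => χ (g : Equiv.Perm X) x) (fun ν hν =>
        ((hEp _ hx1).2.2 ν (Subgroup.mem_subgroupOf.1 hν)).2.1) (hmul x hx)
      simp only [hcoe] at e1
      simp only [if_pos hx]
      exact e1
    · simp only [if_neg hx]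
      exact df_iter_zero_of_le (k := 0) rfl (Nat.zero_le k)
  · have hy1 : sq T P n y ∈ E ↔ y ∈ E := hEinv _ (hsq n) y
    have hy2 : (V ^ n) y ∈ E ↔ y ∈ E := hEinv _ (Subgroup.zpow_mem _ hVG n) y
    by_cases hy : y ∈ E
    · rw [Set.indicator_of_mem (hy1.2 hy), Set.indicator_of_mem (hy2.2 hy)]
      have e1 := F1 y hy ((⟨V, hVG⟩ : G) ^ n) _ (Subgroup.mem_subgroupOf.1 (hmem n))
      rw [hcoe, ← Equiv.Perm.mul_apply, Subgroup.coe_zpow] at e1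
      have e2 : V ^ n * (V ^ (-n) * sq T P n) = sq T P n := by
        rw [← mul_assoc, ← zpow_add, add_neg_cancel, zpow_zero, one_mul]
      have e1' : f (sq T P n y) = χ (V ^ (-n) * sq T P n) y * f ((V ^ n) y) := by
        rw [← e1]
        exact congrArg (fun τ : Equiv.Perm X => f (τ y)) e2.symm
      by_cases hy3 : y ∈ E'
      · simp only [if_pos hy3]
        rw [toCircle_ag ((hEp _ hy).2.2 ⟨_, hN1 (hN3 n)⟩ (hN3 n)).2.1, e1']
      · have hz : ∀ γ : G, f ((γ : Equiv.Perm X) y) = 0 := by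
          intro γ
          by_contra h3
          exact hy3 (by rw [hE']; exact ⟨hy, γ, h3⟩)
        have e3 := hz ⟨_, hsq n⟩
        have e4 := hz ((⟨V, hVG⟩ : G) ^ n)
        rw [Subgroup.coe_zpow] at e4
        have e3' : f (sq T P n y) = 0 := e3
        have e4' : f ((V ^ n) y) = 0 := e4
        rw [e3', e4', mul_zero]
    · rw [Set.indicator_of_notMem fun h1 => hy (hy1.1 h1),
        Set.indicator_of_notMem fun h1 => hy (hy2.1 h1), mul_zero]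
  · filter_upwards [hEae] with x hx
    rw [Set.indicator_of_mem hx]
    exact (hEp x hx).2.1

end

end NPK
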