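import Pool.Agent.NPK.Wgt2
import Pool.Agent.NPK.Ev2
import Pool.Agent.NPK.Clo

set_option autoImplicit false

/-!
# NPK / End2 : products of `m` functions along polynomial sequences, the final theorem

`InV2 μ G s 𝒱 f` : `f` is in the closure in `L²` of the finite sums of functions `h` which satisfy
`EigV2 μ G s V h` for some `V ∈ 𝒱`.
-/

open Finset MeasureTheory Filter Topology
open scoped ENNReal

namespace NPK
open Pool.PWZ NP2

noncomputable section

variable {X : Type}

/-- the closed span -/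
def InV2 [MeasurableSpace X] (μ : Measure X) (G : Subgroup (Equiv.Perm X))
    (s : ℤ → Equiv.Perm X) (𝒱 : Set (Equiv.Perm X)) (f : X → ℂ) : Prop :=
  ∀ ε : ℝ, 0 < ε → ∃ (l : ℕ) (h : Fin l → X → ℂ),
    (∀ i, ∃ V ∈ 𝒱, EigV2 μ G s V (h i)) ∧
    eLpNorm (fun x => f x - ∑ i, h i x) 2 μ ≤ ENNReal.ofReal ε

/-- a product of functions along exact sequences -/
lemma prod_exact {m : ℕ} (s : Fin m → ℤ → Equiv.Perm X) (V : Fin m → Equiv.Perm X)
    (h : Fin m → X → ℂ) (Φ : Fin m → ℤ → X → UnitAddCircle)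
    (he : ∀ j n y, h j (s j n y) = (AddCircle.toCircle (Φ j n y) : ℂ) * h j ((V j ^ n) y))
    (n : ℤ) (x : X) :
    ∏ j, h j (s j n x) = (AddCircle.toCircle (∑ j, Φ j n x) : ℂ) * ∏ j, h j ((V j ^ n) x) := by
  classical
  simp only [he, Finset.prod_mul_distrib]
  congr 1
  have e2 : ∀ t : Finset (Fin m), (AddCircle.toCircle (∑ j ∈ t, Φ j n x) : ℂ) =
      ∏ j ∈ t, (AddCircle.toCircle (Φ j n x) : ℂ) := by
    intro t
    induction t using Finset.induction_on with
    | empty => rw [Finset.sum_empty, Finset.prod_empty, AddCircle.toCircle_zero, Circle.coe_one]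
    | insert a t ha ih =>
      rw [Finset.sum_insert ha, Finset.prod_insert ha, AddCircle.toCircle_add, Circle.coe_mul, ih]
  exact (e2 univ).symm

lemma df_iter_sum {ι : Type} (t : Finset ι) (Φ : ι → ℤ → UnitAddCircle) (k : ι → ℕ)
    (h : ∀ i ∈ t, df^[k i] (Φ i) = 0) : df^[t.sup k] (fun n => ∑ i ∈ t, Φ i n) = 0 := by
  classical
  induction t using Finset.induction_on with
  | empty =>
    simp only [Finset.sum_empty]
    exact df_iter_zero_of_le (k := 0) rfl (Nat.zero_le _)
  | insert a t ha ih =>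
    have e : (fun n => ∑ i ∈ insert a t, Φ i n) = Φ a + fun n => ∑ i ∈ t, Φ i n := by
      funext n
      rw [Finset.sum_insert ha]
      rfl
    rw [e, df_iter_add, Finset.sup_insert,
      df_iter_zero_of_le (h a (Finset.mem_insert_self a t)) (le_sup_left),
      df_iter_zero_of_le (ih fun i hi => h i (Finset.mem_insert_of_mem hi)) (le_sup_right),
      add_zero]

/-- the exact case -/
theorem cvM_exact2 (hM : NPG.ModH) (hA : ∀ C, NPG.ThmA C) [MeasurableSpace X] {μ : Measure X}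
    [IsProbabilityMeasure μ] {m : ℕ} {G : Subgroup (Equiv.Perm X)} (hG : ∀ γ ∈ G, MP2 μ γ)
    (hnil : Group.IsNilpotent G) (s : Fin m → ℤ → Equiv.Perm X)
    (𝒱 : Fin m → Set (Equiv.Perm X))
    (h2 : ∀ V : Fin m → Equiv.Perm X, (∀ j, V j ∈ 𝒱 j) → (∀ j, V j ∈ G) →
      ∃ A ∈ G, ∃ B ∈ G, ∀ j, V j = 1 ∨ V j = A ∨ V j = B)
    (h : Fin m → X → ℂ) (hh : ∀ j, Ex2 G (s j) (𝒱 j) (h j)) : CvM μ s h := by
  classical
  choose hm hb V hV hVG Φ k hΦm hΦi hΦ he using hh
  obtain ⟨A, hAG, B, hBG, hAB⟩ := h2 V hV hVG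
  choose M hMb using hb
  set W : Fin 2 → Equiv.Perm X := ![A, B] with hW
  set g : Fin 2 → X → ℂ := ![fun y => ∏ j, if V j ≠ 1 ∧ V j = A then h j y else 1,
    fun y => ∏ j, if V j ≠ 1 ∧ V j ≠ A then h j y else 1] with hg
  have hgb : ∀ (p : Fin m → Prop) [DecidablePred p],
      MemLp (fun y => ∏ j, if p j then h j y else 1) ∞ μ := by
    intro p _
    refine memLp_top_of_bound (Measurable.aestronglyMeasurable ?_) (∏ j, max (M j) 1)
      (Eventually.of_forall fun y => ?_)
    · refine Finset.measurable_fun_prod _ fun j _ => ?_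
      by_cases hp : p j
      · simp only [hp, if_true]
        exact hm j
      · simp only [hp, if_false]
        exact measurable_const
    · rw [norm_prod]
      refine Finset.prod_le_prod (fun j _ => norm_nonneg _) fun j _ => ?_
      by_cases hp : p j
      · simp only [hp, if_true]
        exact (hMb j y).trans (le_max_left _ _)
      · simp only [hp, if_false, norm_one]
        exact le_max_right _ _
  have hcl : Subgroup.closure {A, B} ≤ G := by
    rw [Subgroup.closure_le]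
    intro x hx
    simp only [Set.mem_insert_iff, Set.mem_singleton_iff] at hx
    rcases hx with rfl | rfl
    · exact hAG
    · exact hBG
  have hw := wgt2 hM hA μ W (fun j => by
      fin_cases j
      · exact hG _ hAG
      · exact hG _ hBG) (nil_sub hcl hnil) g (fun j => by
      fin_cases j
      · exact hgb _
      · exact hgb _) (fun n x => ∑ j, Φ j n x)
      (fun n => Finset.measurable_fun_sum _ fun j _ => hΦm j n) (fun i n x => by
        refine Finset.sum_congr rfl fun j _ => ?_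
        fin_cases i
        · exact hΦi j A hAG n x
        · exact hΦi j B hBG n x) (univ.sup k)
      (fun x => df_iter_sum univ (fun j n => Φ j n x) k fun j _ => hΦ j x)
  unfold CvM
  filter_upwards [hw] with x hx
  obtain ⟨L, hL⟩ := hx
  refine ⟨(∏ j, if V j = 1 then h j x else 1) * L,
    (hL.const_mul (∏ j, if V j = 1 then h j x else 1)).congr fun N => ?_⟩
  unfold cav
  rw [mul_left_comm, Finset.mul_sum]
  congr 1
  refine Finset.sum_congr rfl fun n _ => ?_
  simp only [Fin.prod_univ_two]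
  rw [prod_exact s V h Φ he n x]
  have e3 : ∏ j, h j ((V j ^ n) x) = (∏ j, if V j = 1 then h j x else 1) *
      ((∏ j, if V j ≠ 1 ∧ V j = A then h j ((A ^ n) x) else 1) *
        ∏ j, if V j ≠ 1 ∧ V j ≠ A then h j ((B ^ n) x) else 1) := by
    rw [← Finset.prod_mul_distrib, ← Finset.prod_mul_distrib]
    refine Finset.prod_congr rfl fun j _ => ?_
    by_cases c1 : V j = 1
    · simp [c1]
    · by_cases c2 : V j = A
      · rw [if_neg c1, if_pos ⟨c1, c2⟩, if_neg (fun h => h.2 c2), one_mul, mul_one, c2]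
      · have c3 : V j = B := by
          rcases hAB j with h1 | h1 | h1
          · exact absurd h1 c1
          · exact absurd h1 c2
          · exact h1
        rw [if_neg c1, if_neg (fun h => c2 h.2), if_pos ⟨c1, c2⟩, one_mul, one_mul, c3]
  rw [e3]
  show (∏ j, if V j = 1 then h j x else 1) * ((AddCircle.toCircle (∑ j, Φ j n x) : ℂ) *
    ((∏ j, if V j ≠ 1 ∧ V j = A then h j ((A ^ n) x) else 1) *
      ∏ j, if V j ≠ 1 ∧ V j ≠ A then h j ((B ^ n) x) else 1)) = _
  ring

/-- from exact functions to their closed span, abstract sequences -/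
theorem span_core [MeasurableSpace X] {μ : Measure X}
    [IsProbabilityMeasure μ] {m : ℕ} {G : Subgroup (Equiv.Perm X)}
    (s : Fin m → ℤ → Equiv.Perm X)
    (hs : ∀ j n, MeasurePreserving ⇑(s j n) μ μ) (hS : ∀ j, Sg μ (s j))
    (𝒱 : Fin m → Set (Equiv.Perm X))
    (hexact : ∀ h : Fin m → X → ℂ, (∀ j, Ex2 G (s j) (𝒱 j) (h j)) → CvM μ s h)
    (hex : ∀ j (V : Equiv.Perm X), V ∈ 𝒱 j → ∀ h : X → ℂ, EigV2 μ G (s j) V h →
      ∃ h' : X → ℂ, Ex2 G (s j) (𝒱 j) h' ∧ ∀ᵐ x ∂μ, h x = h' x)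
    (f : Fin m → X → ℂ) (hf : ∀ j, MemLp (f j) ∞ μ)
    (h1 : ∀ j, InV2 μ G (s j) (𝒱 j) (f j)) : CvM μ s f := by
  choose M f' hM' fm fb fe using fun j => exists_bdd' μ (f j) (hf j)
  have hcore : CvM μ s (fun j x => (M j : ℂ) * f' j x) := by
    refine CvM_of_span hs hS (fun j => Ex2 G (s j) (𝒱 j)) (fun j h hh => ⟨hh.1, hh.2.1⟩)
      hexact Finset.univ _
      (fun j => measurable_const.mul (fm j)) (fun j => ⟨M j, fun x => ?_⟩)
      (fun j hj => absurd (Finset.mem_univ j) hj) fun j _ ε hε => ?_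
    · rw [norm_mul, Complex.norm_real, Real.norm_eq_abs, abs_of_pos (hM' j)]
      exact mul_le_of_le_one_right (hM' j).le (fb j x)
    · obtain ⟨δ, hδ, hδε⟩ : ∃ δ : ℝ, 0 < δ ∧ ENNReal.ofReal δ ≤ ε := by
        rcases eq_or_ne ε ⊤ with rfl | htop
        · exact ⟨1, one_pos, le_top⟩
        · exact ⟨ε.toReal, ENNReal.toReal_pos hε htop, ENNReal.ofReal_toReal_le⟩
      obtain ⟨l, h, hh, hhn⟩ := h1 j δ hδ
      choose V hV hE using hh
      choose h' hh' he' using fun i => hex j (V i) (hV i) (h i) (hE i)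
      refine ⟨l, h', hh', ?_⟩
      have he'' : ∀ᵐ x ∂μ, ∀ i, h i x = h' i x := by
        rw [ae_all_iff]; exact he'
      have h3 : ∫⁻ x, ‖(M j : ℂ) * f' j x - ∑ i, h' i x‖ₑ ∂μ =
          ∫⁻ x, ‖f j x - ∑ i, h i x‖ₑ ∂μ := by
        apply lintegral_congr_ae
        filter_upwards [fe j, he''] with x e1 e2
        simp only [e1, e2]
      rw [h3, ← eLpNorm_one_eq_lintegral_enorm]
      have hmeas : AEStronglyMeasurable (fun x => f j x - ∑ i, h i x) μ :=
        (hf j).aestronglyMeasurable.sub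
          (Finset.aestronglyMeasurable_fun_sum _ fun i _ => (hE i).1.aestronglyMeasurable)
      exact (eLpNorm_le_eLpNorm_of_exponent_le (by norm_num) hmeas).trans (hhn.trans hδε)
  exact CvM.congr hs hcore fe

/-- single averages -/
lemma Sg_sq [MeasurableSpace X] {μ : Measure X} [IsProbabilityMeasure μ] {d : ℕ}
    (T : Fin d → Equiv.Perm X) (hT : ∀ i, MP2 μ (T i))
    (hnil : Group.IsNilpotent (Subgroup.closure (Set.range T))) (P : Fin d → Polynomial ℤ) :
    Sg μ (sq T P) := by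
  intro u hu hub
  have hu2 : MemLp u 2 μ := by
    obtain ⟨M, hM⟩ := hub
    exact MemLp.of_bound hu.aestronglyMeasurable M (Eventually.of_forall hM)
  have h := Pool.Nil.orb_conv T (fun i => (hT i).1) (fun i => (hT i).2) hnil P u hu2
  filter_upwards [h] with x hx
  obtain ⟨L, hL⟩ := hx
  refine ⟨L, hL.congr fun N => ?_⟩
  unfold cav
  push_cast
  rfl

lemma mp_sq [MeasurableSpace X] {μ : Measure X} {d : ℕ}
    (T : Fin d → Equiv.Perm X) (hT : ∀ i, MP2 μ (T i)) (P : Fin d → Polynomial ℤ) (n : ℤ) :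
    MeasurePreserving ⇑(sq T P n) μ μ := (mp2_closure T hT _ (sq_mem T P n)).1

/-- **the final theorem**, conditional on Theorem A and the finite models -/
theorem npk2 (hM : NPG.ModH) (hA : ∀ C, NPG.ThmA C) (X : Type) [MeasurableSpace X] (μ : Measure X)
    [IsProbabilityMeasure μ] (d m : ℕ) (T : Fin d → Equiv.Perm X)
    (hs : ∀ i, Measurable ⇑(T i).symm)
    (hT : ∀ i, MeasurePreserving (⇑(T i)) μ μ)
    (hnil : Group.IsNilpotent (Subgroup.closure (Set.range T)))
    (P : Fin d → Fin m → Polynomial ℤ)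
    (f : Fin m → X → ℂ) (hf : ∀ j, MemLp (f j) ∞ μ) (𝒱 : Fin m → Set (Equiv.Perm X))
    (h2 : ∀ V : Fin m → Equiv.Perm X, (∀ j, V j ∈ 𝒱 j) →
      (∀ j, V j ∈ Subgroup.closure (Set.range T)) →
      ∃ A ∈ Subgroup.closure (Set.range T), ∃ B ∈ Subgroup.closure (Set.range T),
        ∀ j, V j = 1 ∨ V j = A ∨ V j = B)
    (h1 : ∀ j, InV2 μ (Subgroup.closure (Set.range T)) (sq T fun i => P i j) (𝒱 j) (f j)) :
    CvM μ (fun j => sq T fun i => P i j) f := by
  have hT2 : ∀ i, MP2 μ (T i) := fun i => MP2.of (hs i) (hT i)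
  have a1 : ∀ (j : Fin m) (n : ℤ), MeasurePreserving ⇑(sq T (fun i => P i j) n) μ μ :=
    fun j n => mp_sq T hT2 (fun i => P i j) n
  have a2 : ∀ j : Fin m, Sg μ (sq T fun i => P i j) := fun j => Sg_sq T hT2 hnil fun i => P i j
  have a3 : ∀ (j : Fin m) (V : Equiv.Perm X), V ∈ 𝒱 j → ∀ h : X → ℂ,
      EigV2 μ (Subgroup.closure (Set.range T)) (sq T fun i => P i j) V h →
      ∃ h' : X → ℂ, Ex2 (Subgroup.closure (Set.range T)) (sq T fun i => P i j) (𝒱 j) h' ∧
        ∀ᵐ x ∂μ, h x = h' x :=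
    fun j V hV h hE => ex_of_eigV2 T hT2 hnil (fun i => P i j) hV hE
  have a4 : ∀ h : Fin m → X → ℂ,
      (∀ j, Ex2 (Subgroup.closure (Set.range T)) (sq T fun i => P i j) (𝒱 j) (h j)) →
      CvM μ (fun j => sq T fun i => P i j) h :=
    fun h hh => cvM_exact2 hM hA (mp2_closure T hT2) hnil (fun j => sq T fun i => P i j) 𝒱 h2 h hh
  exact span_core (fun j => sq T fun i => P i j) a1 a2 𝒱 a4 a3 f hf h1

end

end NPK
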