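import Pool.Agent.NPK.Spl3
import Pool.Agent.NPK.Deg
import Pool.Agent.NPK.End2

set_option autoImplicit false

/-!
# NPK / End3 : three arbitrary functions and any number of structured functions

Commuting maps, and the part of the nilpotent case in which the commutator subgroup acts by
invariant functions.  Conditional on the finite theorem for three functions.
-/

open Finset MeasureTheory Filter Topology
open scoped ENNReal commutatorElement

namespace NPK
open Pool.PWZ Pool.PWM NP2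

noncomputable section

variable {X : Type}

/-- exact functions -/
def Ex3 [MeasurableSpace X] (G : Subgroup (Equiv.Perm X)) (s : ℤ → Equiv.Perm X)
    (q : Equiv.Perm X → Prop) (p : Prop) (h : X → ℂ) : Prop :=
  Measurable h ∧ (∃ M : ℝ, ∀ x, ‖h x‖ ≤ M) ∧
    (∃ V ∈ G, q V ∧ ∃ Φ : ℤ → X → UnitAddCircle, (∀ n, Measurable (Φ n)) ∧
      (∀ γ ∈ G, ∀ n x, Φ n (γ x) = Φ n x) ∧ (∀ x, df^[4] (fun n => Φ n x) = 0) ∧
      ∀ (n : ℤ) (y : X), h (s n y) = (AddCircle.toCircle (Φ n y) : ℂ) * h ((V ^ n) y)) ∧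
    (p → ∃ χ : G → X → ℂ, EigP G h χ)

lemma EigP.one (G : Subgroup (Equiv.Perm X)) : EigP G (fun _ => (1 : ℂ)) fun _ _ => 1 :=
  ⟨fun _ _ _ => by simp, fun _ _ _ _ => rfl, fun _ _ _ _ => by simp⟩

lemma EigP.const_mul {G : Subgroup (Equiv.Perm X)} {h : X → ℂ} {χ : G → X → ℂ}
    (H : EigP G h χ) (c : ℂ) : EigP G (fun x => c * h x) χ :=
  ⟨H.norm, H.inv, fun γ ν hν x => by
    show c * h _ = χ ν x * (c * h _)
    rw [H.eig γ ν hν x]
    ring⟩

lemma EigP.prod {G : Subgroup (Equiv.Perm X)} {ι : Type} (t : Finset ι) (h : ι → X → ℂ)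
    (χ : ι → G → X → ℂ) (H : ∀ i ∈ t, EigP G (h i) (χ i)) :
    EigP G (fun x => ∏ i ∈ t, h i x) fun ν x => ∏ i ∈ t, χ i ν x := by
  refine ⟨fun ν hν x => ?_, fun γ ν hν x => ?_, fun γ ν hν x => ?_⟩
  · exact norm_prod_le_one _ _ fun i hi => (H i hi).norm ν hν x
  · exact Finset.prod_congr rfl fun i hi => (H i hi).inv γ ν hν x
  · rw [← Finset.prod_mul_distrib]
    exact Finset.prod_congr rfl fun i hi => (H i hi).eig γ ν hν x

/-- the exact case -/
theorem cvM_exact3 (hfin : FinTh 3) [MeasurableSpace X] {μ : Measure X}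
    [IsProbabilityMeasure μ] {m : ℕ} {G : Subgroup (Equiv.Perm X)} (hG : ∀ γ ∈ G, MP2 μ γ)
    (s : Fin m → ℤ → Equiv.Perm X) (J : Finset (Fin m)) (hJ : J.card ≤ 3)
    (p : Fin m → Prop) (hp : ∀ i ∈ J, ∀ j ∈ J, ¬ p i → ¬ p j → i = j)
    (h : Fin m → X → ℂ) (hh : ∀ j, Ex3 G (s j) (fun V => j ∉ J → V = 1) (p j) (h j)) :
    CvM μ s h := by
  classical
  choose hm hb hV hχ using hh
  choose V hVG hV1 Φ hΦm hΦi hΦ he using hV
  -- positive bounds
  obtain ⟨M, hMpos, hMb⟩ : ∃ M : Fin m → ℝ, (∀ j, 0 < M j) ∧ ∀ j x, ‖h j x‖ ≤ M j := by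
    choose M hM using hb
    exact ⟨fun j => max (M j) 1, fun j => lt_of_lt_of_le one_pos (le_max_right _ _),
      fun j x => (hM j x).trans (le_max_left _ _)⟩
  -- colours
  obtain ⟨κ, hκ⟩ : ∃ κ : Fin m → Fin 3, ∀ i ∈ J, ∀ j ∈ J, κ i = κ j → i = j := by
    have hc : Fintype.card J ≤ Fintype.card (Fin 3) := by
      rw [Fintype.card_coe, Fintype.card_fin]
      exact hJ
    obtain ⟨e⟩ := Function.Embedding.nonempty_of_card_le hc
    refine ⟨fun j => if hj : j ∈ J then e ⟨j, hj⟩ else 0, fun i hi j hj hij => ?_⟩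
    simp only [dif_pos hi, dif_pos hj] at hij
    have := e.injective hij
    exact congrArg Subtype.val this
  obtain ⟨i0, hi0⟩ : ∃ i0 : Fin 3, ∀ j ∈ J, κ j ≠ i0 → p j := by
    by_cases h0 : ∃ j ∈ J, ¬ p j
    · obtain ⟨j0, hj0, hpj⟩ := h0
      refine ⟨κ j0, fun j hj hne => ?_⟩
      by_contra h1
      exact hne (by rw [hp j hj j0 hj0 h1 hpj])
    · push Not at h0
      exact ⟨0, fun j hj _ => h0 j hj⟩
  obtain ⟨W, hW⟩ : ∃ W : Fin 3 → G, ∀ j ∈ J, (W (κ j) : Equiv.Perm X) = V j := by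
    refine ⟨fun i => if hi : ∃ j ∈ J, κ j = i then ⟨V hi.choose, hVG _⟩ else 1,
      fun j hj => ?_⟩
    have hi : ∃ j' ∈ J, κ j' = κ j := ⟨j, hj, rfl⟩
    simp only [dif_pos hi]
    rw [hκ _ hi.choose_spec.1 j hj hi.choose_spec.2]
  -- the normalised functions
  set h' : Fin m → X → ℂ := fun j x => ((M j : ℂ))⁻¹ * h j x with hh'
  have hMc : ∀ j, (M j : ℂ) ≠ 0 := fun j => by exact_mod_cast (hMpos j).ne'
  have hh'b : ∀ j x, ‖h' j x‖ ≤ 1 := by
    intro j x
    rw [hh', norm_mul, norm_inv, Complex.norm_real, Real.norm_eq_abs, abs_of_pos (hMpos j),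
      inv_mul_le_iff₀ (hMpos j), mul_one]
    exact hMb j x
  set g : Fin 3 → X → ℂ := fun i y => ∏ j ∈ J.filter (fun j => κ j = i), h' j y with hg
  have hgm : ∀ i, Measurable (g i) := fun i =>
    Finset.measurable_fun_prod _ fun j _ => measurable_const.mul (hm j)
  have hgb : ∀ i x, ‖g i x‖ ≤ 1 := fun i x => norm_prod_le_one _ _ fun j _ => hh'b j x
  have hgE : ∃ χ : Fin 3 → G → X → ℂ, ∀ i, i ≠ i0 → EigP G (g i) (χ i) := by
    have h1 : ∀ i : Fin 3, ∃ χ : G → X → ℂ, i ≠ i0 → EigP G (g i) χ := by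
      intro i
      by_cases hi : i = i0
      · exact ⟨fun _ _ => 1, fun h2 => absurd hi h2⟩
      · have h2 : ∀ j, ∃ χ : G → X → ℂ, j ∈ J.filter (fun j => κ j = i) →
            EigP G (h' j) χ := by
          intro j
          by_cases hj : j ∈ J.filter (fun j => κ j = i)
          · rw [Finset.mem_filter] at hj
            obtain ⟨χ, hχ'⟩ := hχ j (hi0 j hj.1 (by rw [hj.2]; exact hi))
            exact ⟨χ, fun _ => hχ'.const_mul _⟩
          · exact ⟨fun _ _ => 1, fun h3 => absurd h3 hj⟩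
        choose χ hχ' using h2
        exact ⟨_, fun _ => EigP.prod _ h' χ fun j hj => hχ' j hj⟩
    choose χ hχ' using h1
    exact ⟨χ, hχ'⟩
  obtain ⟨χ, hχE⟩ := hgE
  obtain ⟨Ψ, hΨ⟩ : ∃ Ψ : ℤ → X → UnitAddCircle, ∀ n x, Ψ n x = ∑ j, Φ j n x :=
    ⟨fun n x => ∑ j, Φ j n x, fun _ _ => rfl⟩
  have hΨm : ∀ n, Measurable (Ψ n) := by
    intro n
    have e : Ψ n = fun x => ∑ j, Φ j n x := funext fun x => hΨ n x
    rw [e]
    exact Finset.measurable_fun_sum _ fun j _ => hΦm j n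
  have key := ae_of_split 3 hfin μ (fun a => ((Gm W i0 a : G) : Equiv.Perm X))
    (fun a => hG _ (Gm W i0 a).2)
    (fun x n => (AddCircle.toCircle (Ψ n x) : ℂ) *
      ∏ i, g i ((((W i : G) : Equiv.Perm X) ^ n) x))
    (fun n => ((continuous_subtype_val.comp AddCircle.continuous_toCircle).measurable.comp
      (hΨm n)).mul
      (Finset.measurable_fun_prod _ fun i _ => (hgm i).comp
        (hG _ (Subgroup.zpow_mem _ (W i).2 n)).1.measurable))
    (fun x n => norm_mul_le_one' (norm_toCircle _) (norm_prod_le_one _ _ fun i _ => hgb i _))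
    (fun x => split3 i0 W g χ hχE hgb Ψ (fun γ n x => by
        rw [hΨ, hΨ]
        exact Finset.sum_congr rfl fun j _ => hΦi j γ γ.2 n x)
      (fun x => by
        simp only [hΨ]
        exact df_sum_zero univ (fun j n => Φ j n x) 4 fun j _ => hΦ j x) x)
  unfold CvM
  filter_upwards [key] with x hx
  obtain ⟨L, hL⟩ := hx
  refine ⟨(∏ j, if j ∈ J then (M j : ℂ) else h j x) * L,
    (hL.const_mul (∏ j, if j ∈ J then (M j : ℂ) else h j x)).congr fun N => ?_⟩
  unfold cav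
  rw [mul_left_comm, Finset.mul_sum]
  congr 1
  refine Finset.sum_congr rfl fun n _ => ?_
  simp only []
  rw [prod_exact s V h Φ he n x, ← hΨ]
  have e3 : ∏ j, h j ((V j ^ n) x) = (∏ j, if j ∈ J then (M j : ℂ) else h j x) *
      ∏ i, g i ((((W i : G) : Equiv.Perm X) ^ n) x) := by
    have e4 : ∏ i, g i ((((W i : G) : Equiv.Perm X) ^ n) x) =
        ∏ j, if j ∈ J then h' j ((((W (κ j) : G) : Equiv.Perm X) ^ n) x) else 1 := by
      rw [hg]
      simp only [Finset.prod_filter]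
      have e5 : ∀ i : Fin 3, ∏ j ∈ J, (if κ j = i then
          h' j ((((W i : G) : Equiv.Perm X) ^ n) x) else 1) =
          ∏ j ∈ J, (if κ j = i then h' j ((((W (κ j) : G) : Equiv.Perm X) ^ n) x) else 1) := by
        intro i
        refine Finset.prod_congr rfl fun j _ => ?_
        by_cases hj : κ j = i
        · rw [if_pos hj, if_pos hj, hj]
        · rw [if_neg hj, if_neg hj]
      rw [Finset.prod_congr rfl fun i _ => e5 i, Finset.prod_comm, ← Finset.prod_filter_mul_prod_filter_not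
        univ (fun j => j ∈ J)]
      have e6 : ∏ j ∈ univ.filter (fun j => ¬ j ∈ J), (if j ∈ J then
          h' j ((((W (κ j) : G) : Equiv.Perm X) ^ n) x) else 1) = 1 := by
        refine Finset.prod_eq_one fun j hj => ?_
        rw [Finset.mem_filter] at hj
        rw [if_neg hj.2]
      rw [e6, mul_one]
      have e7 : univ.filter (fun j => j ∈ J) = J := by
        ext j
        simp
      rw [e7]
      refine Finset.prod_congr rfl fun j hj => ?_
      rw [if_pos hj, Finset.prod_ite_eq univ (κ j), if_pos (Finset.mem_univ _)]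
    rw [e4, ← Finset.prod_mul_distrib]
    refine Finset.prod_congr rfl fun j _ => ?_
    by_cases hj : j ∈ J
    · rw [if_pos hj, if_pos hj, hW j hj]
      show _ = (M j : ℂ) * ((M j : ℂ)⁻¹ * _)
      rw [mul_inv_cancel_left₀ (hMc j)]
    · rw [if_neg hj, if_neg hj, hV1 j hj, one_zpow, mul_one]
      rfl
  rw [e3]
  ring

end

end NPK
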