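import Pool.Agent.NPK.End3

set_option autoImplicit false

/-!
# NPK / End3F : three arbitrary functions and any number of structured functions, final theorem

`InA μ G 𝒩 f` : `f` is in the closure in `L²` of the finite sums of functions `h` with
`EigA μ G N h` for some `N ∈ 𝒩`.
-/

open Finset MeasureTheory Filter Topology
open scoped ENNReal commutatorElement

namespace NPK
open Pool.PWZ Pool.PWM NP2

noncomputable section

variable {X : Type}

/-- the closed span -/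
def InA [MeasurableSpace X] (μ : Measure X) (G : Subgroup (Equiv.Perm X))
    (𝒩 : Set (Subgroup (Equiv.Perm X))) (f : X → ℂ) : Prop :=
  ∀ ε : ℝ, 0 < ε → ∃ (l : ℕ) (h : Fin l → X → ℂ),
    (∀ i, ∃ N ∈ 𝒩, EigA μ G N (h i)) ∧
    eLpNorm (fun x => f x - ∑ i, h i x) 2 μ ≤ ENNReal.ofReal ε

lemma coe_mem_comm {G : Subgroup (Equiv.Perm X)} {ν : G} (hν : ν ∈ commutator G) :
    (ν : Equiv.Perm X) ∈ ⁅G, G⁆ := by
  rw [← Subgroup.map_subtype_commutator]
  exact ⟨ν, hν, rfl⟩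

/-- linear sequences -/
theorem ex3_E [MeasurableSpace X] {μ : Measure X} {d : ℕ} (T : Fin d → Equiv.Perm X)
    (hT : ∀ i, MP2 μ (T i)) (P : Fin d → Polynomial ℤ) (hP0 : ∀ i, (P i).eval 0 = 0)
    (hP1 : ∀ i, (P i).natDegree ≤ 1) (p : Prop) {h : X → ℂ}
    (H : EigA μ (Subgroup.closure (Set.range T))
      ⁅Subgroup.closure (Set.range T), Subgroup.closure (Set.range T)⁆ h) :
    ∃ h' : X → ℂ, Ex3 (Subgroup.closure (Set.range T)) (sq T P) (fun _ => True) p h' ∧
      ∀ᵐ x ∂μ, h x = h' x := by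
  obtain ⟨G, hG⟩ : ∃ G, G = Subgroup.closure (Set.range T) := ⟨_, rfl⟩
  have hcount : Countable G := hG ▸ countable_closure T
  have hGm : ∀ γ ∈ G, MP2 μ γ := hG ▸ mp2_closure T hT
  have hTG : ∀ i, T i ∈ G := fun i => hG ▸ Subgroup.subset_closure ⟨i, rfl⟩
  rw [← hG] at H ⊢
  have hN2 : ∀ γ ∈ G, ∀ ν ∈ ⁅G, G⁆, γ * ν * γ⁻¹ ∈ ⁅G, G⁆ := by
    intro γ hγ ν hν
    have e : γ * ν * γ⁻¹ = ⁅γ, ν⁆ * ν := by
      rw [commutatorElement_def, inv_mul_cancel_right]
    rw [e]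
    exact Subgroup.mul_mem _ (Subgroup.commutator_mem_commutator hγ
      (Subgroup.commutator_le_self G hν)) hν
  obtain ⟨h', χ, M, hM, hm', hb', hev, hae⟩ :=
    H.everywhere hGm (Subgroup.commutator_le_self G) hN2
  have heval : ∀ i (n : ℤ), (P i).eval n = (P i).coeff 1 * n := by
    intro i n
    have h := Polynomial.eq_X_add_C_of_natDegree_le_one (hP1 i)
    have h0 : (P i).coeff 0 = 0 := by
      rw [Polynomial.coeff_zero_eq_eval_zero]; exact hP0 i
    conv_lhs => rw [h]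
    simp [h0]
  obtain ⟨L, hL⟩ : ∃ L : List G, L = List.ofFn fun i => (⟨T i, hTG i⟩ : G) ^ (P i).coeff 1 :=
    ⟨_, rfl⟩
  have hLn : ∀ n : ℤ, (((L.map fun A => A ^ n).prod : G) : Equiv.Perm X) = sq T P n := by
    intro n
    unfold sq
    rw [hL, Subgroup.val_list_prod, List.map_map, List.map_ofFn]
    congr 2
    funext i
    simp only [Function.comp_apply, Subgroup.coe_zpow, heval, zpow_mul]
  have hmemG : ∀ n : ℤ, L.prod ^ (-n) * (L.map fun A => A ^ n).prod ∈ commutator G := by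
    intro n
    obtain ⟨c, hc, hcn⟩ := list_zpow L
    obtain ⟨κ, hκ, e⟩ := hcn n
    rw [e, ← mul_assoc, ← mul_assoc, ← zpow_add, neg_add_cancel, zpow_zero, one_mul]
    refine Subgroup.mul_mem _ (Subgroup.zpow_mem _ hc _) ?_
    unfold low3 at hκ
    exact Subgroup.commutator_mono le_top le_top hκ
  have hco : ∀ n : ℤ, ((L.prod ^ (-n) * (L.map fun A => A ^ n).prod : G) : Equiv.Perm X) =
      ((L.prod : G) : Equiv.Perm X) ^ (-n) * sq T P n := by
    intro n
    rw [Subgroup.coe_mul, Subgroup.coe_zpow, hLn]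
  have hmem : ∀ n : ℤ, ((L.prod : G) : Equiv.Perm X) ^ (-n) * sq T P n ∈ ⁅G, G⁆ := by
    intro n
    rw [← hco]
    exact coe_mem_comm (hmemG n)
  refine ⟨h', ⟨hm', ⟨M, hb'⟩, ⟨((L.prod : G) : Equiv.Perm X), (L.prod).2, trivial,
    fun n x => ag (χ (((L.prod : G) : Equiv.Perm X) ^ (-n) * sq T P n) x), fun n => ?_,
    fun γ hγ n x => ?_, fun x => ?_, fun n y => ?_⟩, fun _ => ⟨fun ν x => χ ν x, ?_⟩⟩, hae⟩
  · exact measurable_ag.comp (hev.meas _ (hmem n))
  · exact congrArg ag (hev.inv γ hγ _ (hmem n) x)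
  · have h1 := deg_E (H := G) (ψ := fun ν => ag (χ ν x))
      (fun a ha b hb => by
        have h2 := ag_hom (N := commutator G) (χ := fun ν : G => χ ν x)
          (fun ν hν => hev.norm _ (coe_mem_comm hν) x) (fun a ha b hb => by
            rw [Subgroup.coe_mul]
            exact hev.mul _ (coe_mem_comm ha) _ (coe_mem_comm hb) x) a ha b hb
        exact h2)
      (fun γ ν hν => by
        show ag (χ ((γ * ν * γ⁻¹ : G) : Equiv.Perm X) x) = ag (χ ν x)
        rw [Subgroup.coe_mul, Subgroup.coe_mul, Subgroup.coe_inv,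
          hev.conj γ γ.2 _ (coe_mem_comm hν)]) L
    simp only [hco] at h1
    exact df_iter_zero_of_le h1 (by norm_num)
  · have e1 := hev.eig _ (G.zpow_mem (L.prod).2 n) _ (hmem n) y
    have e2 : ((L.prod : G) : Equiv.Perm X) ^ n *
        (((L.prod : G) : Equiv.Perm X) ^ (-n) * sq T P n) = sq T P n := by
      rw [← mul_assoc, ← zpow_add, add_neg_cancel, zpow_zero, one_mul]
    rw [e2] at e1
    rw [toCircle_ag (hev.norm _ (hmem n) y), e1]
  · refine ⟨fun ν hν x => (hev.norm _ (coe_mem_comm hν) x).le,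
      fun γ ν hν x => hev.inv γ γ.2 _ (coe_mem_comm hν) x, fun γ ν hν x => ?_⟩
    rw [Subgroup.coe_mul]
    exact hev.eig γ γ.2 _ (coe_mem_comm hν) x

/-- sequences in a normal subgroup -/
theorem ex3_K [MeasurableSpace X] {μ : Measure X} {d : ℕ} (T : Fin d → Equiv.Perm X)
    (hT : ∀ i, MP2 μ (T i)) (P : Fin d → Polynomial ℤ) (hP3 : ∀ i, (P i).natDegree ≤ 3)
    (N : Subgroup (Equiv.Perm X)) (hN1 : N ≤ Subgroup.closure (Set.range T))
    (hN2 : ∀ γ ∈ Subgroup.closure (Set.range T), ∀ ν ∈ N, γ * ν * γ⁻¹ ∈ N)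
    (hN3 : ∀ i, P i ≠ 0 → T i ∈ N) {h : X → ℂ}
    (H : EigA μ (Subgroup.closure (Set.range T)) N h) :
    ∃ h' : X → ℂ, Ex3 (Subgroup.closure (Set.range T)) (sq T P) (fun V => V = 1) False h' ∧
      ∀ᵐ x ∂μ, h x = h' x := by
  obtain ⟨G, hG⟩ : ∃ G, G = Subgroup.closure (Set.range T) := ⟨_, rfl⟩
  have hcount : Countable G := hG ▸ countable_closure T
  have hGm : ∀ γ ∈ G, MP2 μ γ := hG ▸ mp2_closure T hT
  rw [← hG] at H hN1 hN2 ⊢
  obtain ⟨h', χ, M, hM, hm', hb', hev, hae⟩ := H.everywhere hGm hN1 hN2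
  have hmem : ∀ n : ℤ, sq T P n ∈ N := by
    intro n
    refine Subgroup.list_prod_mem _ fun g hg => ?_
    rw [List.mem_ofFn] at hg
    obtain ⟨i, rfl⟩ := hg
    by_cases hi : P i = 0
    · rw [hi, Polynomial.eval_zero, zpow_zero]
      exact N.one_mem
    · exact N.zpow_mem (hN3 i hi) _
  refine ⟨h', ⟨hm', ⟨M, hb'⟩, ⟨1, G.one_mem, rfl, fun n x => ag (χ (sq T P n) x),
    fun n => measurable_ag.comp (hev.meas _ (hmem n)),
    fun γ hγ n x => congrArg ag (hev.inv γ hγ _ (hmem n) x), fun x => ?_, fun n y => ?_⟩,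
    fun h => h.elim⟩, hae⟩
  · exact deg_K (H := Equiv.Perm X) (N := N) (ψ := fun ν => ag (χ ν x))
      (ag_hom (χ := fun ν => χ ν x) (fun ν hν => hev.norm ν hν x)
        (fun a ha b hb => hev.mul a ha b hb x)) T P hN3 (fun i => by
          have := hP3 i
          omega)
  · have e1 := hev.eig 1 G.one_mem _ (hmem n) y
    rw [one_mul, Equiv.Perm.one_apply] at e1
    rw [toCircle_ag (hev.norm _ (hmem n) y), e1, one_zpow, Equiv.Perm.one_apply]

/-- approximation by exact functions -/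
lemma approx [MeasurableSpace X] {μ : Measure X} [IsProbabilityMeasure μ] {f F : X → ℂ}
    (hf : MemLp f ∞ μ) (hfF : ∀ᵐ x ∂μ, f x = F x) (Cls cls : (X → ℂ) → Prop)
    (hcls : ∀ h, cls h → ∃ h', Cls h' ∧ ∀ᵐ x ∂μ, h x = h' x)
    (hmem : ∀ h, cls h → MemLp h ∞ μ)
    (h1 : ∀ ε : ℝ, 0 < ε → ∃ (l : ℕ) (h : Fin l → X → ℂ), (∀ i, cls (h i)) ∧
      eLpNorm (fun x => f x - ∑ i, h i x) 2 μ ≤ ENNReal.ofReal ε)
    (ε : ℝ≥0∞) (hε : ε ≠ 0) : ∃ (l : ℕ) (h : Fin l → X → ℂ), (∀ i, Cls (h i)) ∧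
        ∫⁻ x, ‖F x - ∑ i, h i x‖ₑ ∂μ ≤ ε := by
  obtain ⟨δ, hδ, hδε⟩ : ∃ δ : ℝ, 0 < δ ∧ ENNReal.ofReal δ ≤ ε := by
    rcases eq_or_ne ε ⊤ with rfl | htop
    · exact ⟨1, one_pos, le_top⟩
    · exact ⟨ε.toReal, ENNReal.toReal_pos hε htop, ENNReal.ofReal_toReal_le⟩
  obtain ⟨l, h, hh, hhn⟩ := h1 δ hδ
  choose h' hh' he' using fun i => hcls (h i) (hh i)
  refine ⟨l, h', hh', ?_⟩
  have he'' : ∀ᵐ x ∂μ, ∀ i, h i x = h' i x := by
    rw [ae_all_iff]; exact he'
  have h3 : ∫⁻ x, ‖F x - ∑ i, h' i x‖ₑ ∂μ = ∫⁻ x, ‖f x - ∑ i, h i x‖ₑ ∂μ := by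
    apply lintegral_congr_ae
    filter_upwards [hfF, he''] with x e1 e2
    simp only [e1, e2]
  rw [h3, ← eLpNorm_one_eq_lintegral_enorm]
  have hmeas : AEStronglyMeasurable (fun x => f x - ∑ i, h i x) μ :=
    hf.aestronglyMeasurable.sub
      (Finset.aestronglyMeasurable_fun_sum _ fun i _ => (hmem _ (hh i)).aestronglyMeasurable)
  exact (eLpNorm_le_eLpNorm_of_exponent_le (by norm_num) hmeas).trans (hhn.trans hδε)

/-- **the final theorem**, conditional on the finite theorem for three functions -/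
theorem npk3 (hfin : FinTh 3) (X : Type) [MeasurableSpace X] (μ : Measure X)
    [IsProbabilityMeasure μ] (d m : ℕ) (T : Fin d → Equiv.Perm X)
    (hs : ∀ i, Measurable ⇑(T i).symm)
    (hT : ∀ i, MeasurePreserving (⇑(T i)) μ μ)
    (hnil : Group.IsNilpotent (Subgroup.closure (Set.range T)))
    (P : Fin d → Fin m → Polynomial ℤ) (hP0 : ∀ i j, (P i j).eval 0 = 0)
    (f : Fin m → X → ℂ) (hf : ∀ j, MemLp (f j) ∞ μ)
    (J : Finset (Fin m)) (hJ : J.card ≤ 3) (j0 : Fin m)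
    (h1 : ∀ j ∈ J, (∀ i, (P i j).natDegree ≤ 1) ∧
      (InA μ (Subgroup.closure (Set.range T))
        {⁅Subgroup.closure (Set.range T), Subgroup.closure (Set.range T)⁆} (f j) ∨
        (j = j0 ∧ ∃ V : Equiv.Perm X, ∀ n : ℤ, sq T (fun i => P i j) n = V ^ n)))
    (h2 : ∀ j ∉ J, (∀ i, (P i j).natDegree ≤ 3) ∧
      InA μ (Subgroup.closure (Set.range T))
        {N | N ≤ Subgroup.closure (Set.range T) ∧
          (∀ γ ∈ Subgroup.closure (Set.range T), ∀ ν ∈ N, γ * ν * γ⁻¹ ∈ N) ∧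
          ∀ i, P i j ≠ 0 → T i ∈ N} (f j)) :
    CvM μ (fun j => sq T fun i => P i j) f := by
  classical
  have hT2 : ∀ i, MP2 μ (T i) := fun i => MP2.of (hs i) (hT i)
  obtain ⟨s, hsd⟩ : ∃ s : Fin m → ℤ → Equiv.Perm X, ∀ j, s j = sq T fun i => P i j :=
    ⟨fun j => sq T fun i => P i j, fun _ => rfl⟩
  have hse : (fun j => sq T fun i => P i j) = s := funext fun j => (hsd j).symm
  rw [hse]
  simp only [← hsd] at h1
  have hsm : ∀ j n, MeasurePreserving ⇑(s j n) μ μ := by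
    intro j n
    rw [hsd]
    exact mp_sq T hT2 (fun i => P i j) n
  have hSg : ∀ j, Sg μ (s j) := by
    intro j
    rw [hsd]
    exact Sg_sq T hT2 hnil fun i => P i j
  choose M f' hM' fm fb fe using fun j => exists_bdd' μ (f j) (hf j)
  have fe' : ∀ j, ∀ᵐ x ∂μ, f j x = (M j : ℂ) * f' j x := fe
  have hbd : ∀ j x, ‖(M j : ℂ) * f' j x‖ ≤ M j := by
    intro j x
    rw [norm_mul, Complex.norm_real, Real.norm_eq_abs, abs_of_pos (hM' j)]
    exact mul_le_of_le_one_right (hM' j).le (fb j x)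
  obtain ⟨p, hp⟩ : ∃ p : Fin m → Prop, ∀ j, p j ↔ (j ∈ J ∧
      InA μ (Subgroup.closure (Set.range T))
        {⁅Subgroup.closure (Set.range T), Subgroup.closure (Set.range T)⁆} (f j)) :=
    ⟨_, fun j => Iff.rfl⟩
  have hcore : CvM μ s (fun j x => (M j : ℂ) * f' j x) := by
    refine CvM_of_span hsm hSg
      (fun j => Ex3 (Subgroup.closure (Set.range T)) (s j) (fun V => j ∉ J → V = 1) (p j))
      (fun j h hh => ⟨hh.1, hh.2.1⟩)
      (fun h hh => cvM_exact3 hfin (mp2_closure T hT2) s J hJ p (fun i hi j hj hpi hpj => ?_) h hh)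
      Finset.univ _ (fun j => measurable_const.mul (fm j)) (fun j => ⟨M j, hbd j⟩)
      (fun j hj => absurd (Finset.mem_univ j) hj) fun j _ ε hε => ?_
    · have a1 : i = j0 := by
        rcases (h1 i hi).2 with h3 | h3
        · exact absurd ((hp i).2 ⟨hi, h3⟩) hpi
        · exact h3.1
      have a2 : j = j0 := by
        rcases (h1 j hj).2 with h3 | h3
        · exact absurd ((hp j).2 ⟨hj, h3⟩) hpj
        · exact h3.1
      rw [a1, a2]
    · by_cases hj : j ∈ J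
      · by_cases hE : InA μ (Subgroup.closure (Set.range T))
            {⁅Subgroup.closure (Set.range T), Subgroup.closure (Set.range T)⁆} (f j)
        · refine approx (hf j) (fe' j) _ (fun h => ∃ N ∈ ({⁅Subgroup.closure (Set.range T),
            Subgroup.closure (Set.range T)⁆} : Set (Subgroup (Equiv.Perm X))),
            EigA μ (Subgroup.closure (Set.range T)) N h) (fun h hh => ?_)
            (fun h hh => ?_) hE ε hε
          · obtain ⟨N, hN, hh⟩ := hh
            rw [Set.mem_singleton_iff] at hN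
            subst hN
            obtain ⟨h', e1, e2⟩ := ex3_E T hT2 (fun i => P i j) (fun i => hP0 i j)
              (h1 j hj).1 (p j) hh
            rw [← hsd] at e1
            obtain ⟨b1, b2, ⟨V, c1, _, c2⟩, b3⟩ := e1
            exact ⟨h', ⟨b1, b2, ⟨V, c1, fun h3 => absurd hj h3, c2⟩, b3⟩, e2⟩
          · obtain ⟨N, _, hh⟩ := hh
            exact hh.1
        · obtain ⟨_, V, hV⟩ := (h1 j hj).2.resolve_left hE
          have hVG : V ∈ Subgroup.closure (Set.range T) := by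
            have h5 := hV 1
            rw [zpow_one] at h5
            rw [← h5, hsd]
            exact sq_mem T (fun i => P i j) 1
          refine ⟨1, fun _ x => (M j : ℂ) * f' j x, fun _ => ⟨measurable_const.mul (fm j),
            ⟨M j, hbd j⟩, ⟨V, hVG, fun h3 => absurd hj h3, fun _ _ => 0, fun _ => measurable_const,
            fun _ _ _ _ => rfl, fun _ => df_iter_zero_of_le (k := 0) rfl (Nat.zero_le _),
            fun n y => ?_⟩, fun h3 => absurd ((hp j).1 h3).2 hE⟩, ?_⟩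
          · rw [hV n, AddCircle.toCircle_zero, Circle.coe_one, one_mul]
          · simp
      · refine approx (hf j) (fe' j) _ (fun h => ∃ N ∈ {N : Subgroup (Equiv.Perm X) |
            N ≤ Subgroup.closure (Set.range T) ∧
            (∀ γ ∈ Subgroup.closure (Set.range T), ∀ ν ∈ N, γ * ν * γ⁻¹ ∈ N) ∧
            ∀ i, P i j ≠ 0 → T i ∈ N},
            EigA μ (Subgroup.closure (Set.range T)) N h) (fun h hh => ?_)
            (fun h hh => ?_) (h2 j hj).2 ε hε
        · obtain ⟨N, hN, hh⟩ := hh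
          obtain ⟨h', e1, e2⟩ := ex3_K T hT2 (fun i => P i j) (h2 j hj).1 N hN.1 hN.2.1 hN.2.2 hh
          rw [← hsd] at e1
          obtain ⟨b1, b2, ⟨V, c1, c3, c2⟩, b3⟩ := e1
          exact ⟨h', ⟨b1, b2, ⟨V, c1, fun _ => c3, c2⟩, fun h3 => absurd ((hp j).1 h3).1 hj⟩, e2⟩
        · obtain ⟨N, _, hh⟩ := hh
          exact hh.1
  exact CvM.congr hsm hcore fe'

end

end NPK
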