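import Pool.Agent.NPK.Ev2

set_option autoImplicit false

/-!
# NPK / Ev3 : everywhere version of functions on which a normal subgroup acts by invariant functions

Abstract form: a countable group `G`, a normal subgroup `N`, all statements in terms of `χ`.
-/

open Finset MeasureTheory Filter Topology
open scoped ENNReal commutatorElement

namespace NPK
open Pool.PWZ NP2

noncomputable section

variable {X : Type}

/-- `h` is bounded and `N` acts on `h` by unimodular `G`-invariant functions `χ ν` which depend only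
on the conjugacy class of `ν` -/
def EigA [MeasurableSpace X] (μ : Measure X) (G N : Subgroup (Equiv.Perm X)) (h : X → ℂ) : Prop :=
  MemLp h ∞ μ ∧ ∃ χ : Equiv.Perm X → X → ℂ,
    (∀ ν ∈ N, Measurable (χ ν)) ∧
    (∀ ν ∈ N, ∀ᵐ x ∂μ, ‖χ ν x‖ = 1) ∧
    (∀ γ ∈ G, ∀ ν ∈ N, ∀ᵐ x ∂μ, χ ν (γ x) = χ ν x) ∧
    (∀ γ ∈ G, ∀ ν ∈ N, ∀ᵐ x ∂μ, χ (γ * ν * γ⁻¹) x = χ ν x) ∧
    ∀ ν ∈ N, ∀ᵐ x ∂μ, h (ν x) = χ ν x * h x

/-- everywhere version -/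
structure EvA [MeasurableSpace X] (G N : Subgroup (Equiv.Perm X)) (h : X → ℂ)
    (χ : Equiv.Perm X → X → ℂ) : Prop where
  meas : ∀ ν ∈ N, Measurable (χ ν)
  norm : ∀ ν ∈ N, ∀ x, ‖χ ν x‖ = 1
  inv : ∀ γ ∈ G, ∀ ν ∈ N, ∀ x, χ ν (γ x) = χ ν x
  conj : ∀ γ ∈ G, ∀ ν ∈ N, ∀ x, χ (γ * ν * γ⁻¹) x = χ ν x
  mul : ∀ a ∈ N, ∀ b ∈ N, ∀ x, χ (a * b) x = χ a x * χ b x
  eig : ∀ γ ∈ G, ∀ ν ∈ N, ∀ x, h ((γ * ν) x) = χ ν x * h (γ x)

theorem EigA.everywhere [MeasurableSpace X] {μ : Measure X} {G N : Subgroup (Equiv.Perm X)}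
    [Countable G] (hGm : ∀ γ ∈ G, MP2 μ γ) (hN1 : N ≤ G)
    (hN2 : ∀ γ ∈ G, ∀ ν ∈ N, γ * ν * γ⁻¹ ∈ N) {h : X → ℂ} (H : EigA μ G N h) :
    ∃ (h' : X → ℂ) (χ : Equiv.Perm X → X → ℂ) (M : ℝ), 0 < M ∧ Measurable h' ∧
      (∀ x, ‖h' x‖ ≤ M) ∧ EvA G N h' χ ∧ ∀ᵐ x ∂μ, h x = h' x := by
  classical
  obtain ⟨hm, χ, c0, c1, c2, c3, c4⟩ := H
  obtain ⟨M, f, hM, hfm, hfe, hfb⟩ := exists_bdd μ h hm
  have hp : ∀ᵐ x ∂μ, ‖f x‖ ≤ M ∧ h x = f x ∧ ∀ ν : G, (ν : Equiv.Perm X) ∈ N →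
      f ((ν : Equiv.Perm X) x) = χ ν x * f x ∧ ‖χ ν x‖ = 1 ∧
      ∀ δ : G, χ ν ((δ : Equiv.Perm X) x) = χ ν x ∧
        χ ((δ : Equiv.Perm X) * ν * (δ : Equiv.Perm X)⁻¹) x = χ ν x := by
    have d1 : ∀ᵐ x ∂μ, ∀ ν : G, h ((ν : Equiv.Perm X) x) = f ((ν : Equiv.Perm X) x) := by
      rw [ae_all_iff]
      exact fun ν => (hGm ν ν.2).1.quasiMeasurePreserving.ae hfe
    have d2 : ∀ᵐ x ∂μ, ∀ ν : G, (ν : Equiv.Perm X) ∈ N →
        h ((ν : Equiv.Perm X) x) = χ ν x * h x ∧ ‖χ ν x‖ = 1 := by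
      rw [ae_all_iff]
      intro ν
      by_cases hν : (ν : Equiv.Perm X) ∈ N
      · filter_upwards [c4 ν hν, c1 ν hν] with x h1 h2 _
        exact ⟨h1, h2⟩
      · exact Eventually.of_forall fun x h1 => absurd h1 hν
    have d3 : ∀ᵐ x ∂μ, ∀ ν δ : G, (ν : Equiv.Perm X) ∈ N →
        χ ν ((δ : Equiv.Perm X) x) = χ ν x ∧
        χ ((δ : Equiv.Perm X) * ν * (δ : Equiv.Perm X)⁻¹) x = χ ν x := by
      rw [ae_all_iff]
      intro ν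
      rw [ae_all_iff]
      intro δ
      by_cases hν : (ν : Equiv.Perm X) ∈ N
      · filter_upwards [c2 δ δ.2 ν hν, c3 δ δ.2 ν hν] with x h1 h2 _
        exact ⟨h1, h2⟩
      · exact Eventually.of_forall fun x h1 => absurd h1 hν
    filter_upwards [hfe, hfb, d1, d2, d3] with x e1 e2 e3 e4 e5
    refine ⟨e2, e1, fun ν hν => ⟨?_, (e4 ν hν).2, fun δ => e5 ν δ hν⟩⟩
    rw [← e3, (e4 ν hν).1, e1]
  obtain ⟨E, hEm, hEae, hEinv, hEp⟩ := inv_set hGm hp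
  have F0 : ∀ x ∈ E, ∀ ν ∈ N, ‖χ ν x‖ = 1 := fun x hx ν hν =>
    ((hEp x hx).2.2 ⟨ν, hN1 hν⟩ hν).2.1
  have F2 : ∀ x ∈ E, ∀ ν ∈ N, ∀ δ ∈ G, χ ν (δ x) = χ ν x := fun x hx ν hν δ hδ =>
    (((hEp x hx).2.2 ⟨ν, hN1 hν⟩ hν).2.2 ⟨δ, hδ⟩).1
  have F3 : ∀ x ∈ E, ∀ ν ∈ N, ∀ δ ∈ G, χ (δ * ν * δ⁻¹) x = χ ν x := fun x hx ν hν δ hδ =>
    (((hEp x hx).2.2 ⟨ν, hN1 hν⟩ hν).2.2 ⟨δ, hδ⟩).2
  have F4 : ∀ x ∈ E, ∀ ν ∈ N, f (ν x) = χ ν x * f x := fun x hx ν hν =>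
    ((hEp x hx).2.2 ⟨ν, hN1 hν⟩ hν).1
  -- action of `N` along the orbits
  have F1 : ∀ x ∈ E, ∀ γ ∈ G, ∀ ν ∈ N, f ((γ * ν) x) = χ ν x * f (γ x) := by
    intro x hx γ hγ ν hν
    have hx2 : γ x ∈ E := (hEinv γ hγ x).2 hx
    have e1 := F4 _ hx2 (γ * ν * γ⁻¹) (hN2 γ hγ ν hν)
    rw [← Equiv.Perm.mul_apply, inv_mul_cancel_right, F3 _ hx2 ν hν γ hγ, F2 _ hx ν hν γ hγ] at e1
    exact e1
  obtain ⟨E', hE'⟩ : ∃ E' : Set X, E' = E ∩ {x | ∃ γ : G, f ((γ : Equiv.Perm X) x) ≠ 0} :=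
    ⟨_, rfl⟩
  have hE'm : MeasurableSet E' := by
    rw [hE', Set.ofPred_exists]
    refine hEm.inter (MeasurableSet.iUnion fun γ => ?_)
    exact (hfm.comp (hGm γ γ.2).1.measurable) (measurableSet_singleton (0 : ℂ)).compl
  have hE'E : ∀ x ∈ E', x ∈ E := fun x hx => by
    rw [hE'] at hx
    exact hx.1
  have hE'inv : ∀ γ ∈ G, ∀ x, γ x ∈ E' ↔ x ∈ E' := by
    intro γ hγ x
    rw [hE']
    constructor
    · rintro ⟨h1, δ, h2⟩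
      refine ⟨(hEinv γ hγ x).1 h1, δ * ⟨γ, hγ⟩, ?_⟩
      rw [Subgroup.coe_mul, Equiv.Perm.mul_apply]
      exact h2
    · rintro ⟨h1, δ, h2⟩
      refine ⟨(hEinv γ hγ x).2 h1, δ * ⟨γ, hγ⟩⁻¹, ?_⟩
      rw [← Equiv.Perm.mul_apply]
      have e : ((δ * ⟨γ, hγ⟩⁻¹ : G) : Equiv.Perm X) * γ = δ := by
        rw [Subgroup.coe_mul, Subgroup.coe_inv, inv_mul_cancel_right]
      rw [e]
      exact h2
  have hmul : ∀ x ∈ E', ∀ a ∈ N, ∀ b ∈ N, χ (a * b) x = χ a x * χ b x := by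
    intro x hx a ha b hb
    rw [hE'] at hx
    obtain ⟨hx, γ, hγ⟩ := hx
    have e1 := F1 x hx γ γ.2 (a * b) (N.mul_mem ha hb)
    have e2 := F1 x hx (γ * a) (G.mul_mem γ.2 (hN1 ha)) b hb
    have e3 := F1 x hx γ γ.2 a ha
    rw [← mul_assoc, e2, e3, ← mul_assoc] at e1
    rw [← mul_right_cancel₀ hγ e1, mul_comm]
  refine ⟨E.indicator f, fun ν x => if x ∈ E' then χ ν x else 1, M, hM, hfm.indicator hEm,
    fun x => ?_, ⟨fun ν hν => ?_, fun ν hν x => ?_, fun γ hγ ν hν x => ?_, fun γ hγ ν hν x => ?_,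
      fun a ha b hb x => ?_, fun γ hγ ν hν x => ?_⟩, ?_⟩
  · by_cases hx : x ∈ E
    · rw [Set.indicator_of_mem hx]
      exact (hEp x hx).1
    · rw [Set.indicator_of_notMem hx, norm_zero]
      exact hM.le
  · exact Measurable.ite hE'm (c0 ν hν) measurable_const
  · by_cases hx : x ∈ E'
    · simp only [if_pos hx]
      exact F0 x (hE'E x hx) ν hν
    · simp only [if_neg hx, norm_one]
  · by_cases hx : x ∈ E'
    · have hx2 : γ x ∈ E' := (hE'inv γ hγ x).2 hx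
      simp only [if_pos hx, if_pos hx2]
      exact F2 x (hE'E x hx) ν hν γ hγ
    · have hx2 : γ x ∉ E' := fun h1 => hx ((hE'inv γ hγ x).1 h1)
      simp only [if_neg hx, if_neg hx2]
  · by_cases hx : x ∈ E'
    · simp only [if_pos hx]
      exact F3 x (hE'E x hx) ν hν γ hγ
    · simp only [if_neg hx]
  · by_cases hx : x ∈ E'
    · simp only [if_pos hx]
      exact hmul x hx a ha b hb
    · simp only [if_neg hx, mul_one]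
  · have hy1 : (γ * ν) x ∈ E ↔ x ∈ E := hEinv _ (G.mul_mem hγ (hN1 hν)) x
    have hy2 : γ x ∈ E ↔ x ∈ E := hEinv _ hγ x
    by_cases hy : x ∈ E
    · rw [Set.indicator_of_mem (hy1.2 hy), Set.indicator_of_mem (hy2.2 hy)]
      by_cases hy3 : x ∈ E'
      · simp only [if_pos hy3]
        exact F1 x hy γ hγ ν hν
      · simp only [if_neg hy3]
        have hz : ∀ δ ∈ G, f (δ x) = 0 := by
          intro δ hδ
          by_contra h3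
          exact hy3 (by rw [hE']; exact ⟨hy, ⟨δ, hδ⟩, h3⟩)
        rw [hz _ (G.mul_mem hγ (hN1 hν)), hz _ hγ, mul_zero]
    · rw [Set.indicator_of_notMem fun h1 => hy (hy1.1 h1),
        Set.indicator_of_notMem fun h1 => hy (hy2.1 h1), mul_zero]
  · filter_upwards [hEae] with x hx
    rw [Set.indicator_of_mem hx]
    exact (hEp x hx).2.1

end

end NPK
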