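import Pool.Agent.NPK.Phs

set_option autoImplicit false

/-!
# NPK / Fac : phases of degree at most three are face functions in four variables

`n = z - a_0 - a_1 - a_2`, `z` the sum of the coordinates of the moved point.
-/

namespace NPK

noncomputable section

/-- difference with step `h` -/
def dh (h : ℤ) (Φ : ℤ → UnitAddCircle) : ℤ → UnitAddCircle := fun n => Φ (n + h) - Φ n

lemma df_shift (Φ : ℤ → UnitAddCircle) (h : ℤ) (k : ℕ) :
    df^[k] (fun n => Φ (n + h)) = fun n => df^[k] Φ (n + h) := by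
  induction k with
  | zero => rfl
  | succ k ih =>
    rw [Function.iterate_succ_apply', Function.iterate_succ_apply', ih]
    funext n
    show df^[k] Φ (n + 1 + h) - df^[k] Φ (n + h) = df^[k] Φ (n + h + 1) - df^[k] Φ (n + h)
    rw [add_right_comm]

lemma df_neg (Φ : ℤ → UnitAddCircle) (k : ℕ) : df^[k] (-Φ) = -df^[k] Φ := by
  induction k with
  | zero => rfl
  | succ k ih =>
    rw [Function.iterate_succ_apply', Function.iterate_succ_apply', ih]
    funext n
    show -df^[k] Φ (n + 1) - -df^[k] Φ n = -(df^[k] Φ (n + 1) - df^[k] Φ n)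
    abel

/-- differences with arbitrary steps lower the degree -/
lemma df_dh {Φ : ℤ → UnitAddCircle} {k : ℕ} (hΦ : df^[k + 1] Φ = 0) (h : ℤ) :
    df^[k] (dh h Φ) = 0 := by
  have h1 : ∀ c : ℤ, df^[k] (fun n => df Φ (n + c)) = 0 := by
    intro c
    rw [df_shift, ← Function.iterate_succ_apply, hΦ]
    rfl
  induction h using Int.induction_on with
  | zero =>
    have e : dh 0 Φ = 0 := by
      funext n
      show Φ (n + 0) - Φ n = 0
      rw [add_zero, sub_self]
    rw [e]
    exact df_iter_zero_of_le (k := 0) rfl (Nat.zero_le k)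
  | succ h ih =>
    have e : dh ((h : ℤ) + 1) Φ = dh h Φ + fun n => df Φ (n + h) := by
      funext n
      show Φ (n + (h + 1)) - Φ n = (Φ (n + h) - Φ n) + (Φ (n + h + 1) - Φ (n + h))
      rw [add_assoc n (h : ℤ) 1]
      abel
    rw [e, df_iter_add, ih, h1, add_zero]
  | pred h ih =>
    have e : dh (-(h : ℤ) - 1) Φ = dh (-(h : ℤ)) Φ + -fun n => df Φ (n + (-(h : ℤ) - 1)) := by
      funext n
      show Φ (n + (-(h : ℤ) - 1)) - Φ n = (Φ (n + -(h : ℤ)) - Φ n) +
        -(Φ (n + (-(h : ℤ) - 1) + 1) - Φ (n + (-(h : ℤ) - 1)))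
      have e2 : n + (-(h : ℤ) - 1) + 1 = n + -(h : ℤ) := by ring
      rw [e2]
      abel
    rw [e, df_iter_add, df_neg, ih, h1, neg_zero, add_zero]

/-- inclusion and exclusion for four variables -/
lemma incl_excl {Φ : ℤ → UnitAddCircle} (hΦ : df^[4] Φ = 0) (p q r s : ℤ) :
    Φ (p + q + r + s) =
      (Φ (q + r + s) + Φ (p + r + s) + Φ (p + q + s) + Φ (p + q + r)) -
      (Φ (p + q) + Φ (p + r) + Φ (p + s) + Φ (q + r) + Φ (q + s) + Φ (r + s)) +
      (Φ p + Φ q + Φ r + Φ s) - Φ 0 := by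
  have h1 : dh p (dh q (dh r (dh s Φ))) = 0 :=
    df_dh (k := 0) (df_dh (k := 1) (df_dh (k := 2) (df_dh (k := 3) hΦ s) r) q) p
  have h2 := congrFun h1 0
  simp only [dh, zero_add, Pi.zero_apply] at h2
  have h3 : Φ (p + q + r + s) - ((Φ (q + r + s) + Φ (p + r + s) + Φ (p + q + s) + Φ (p + q + r)) -
      (Φ (p + q) + Φ (p + r) + Φ (p + s) + Φ (q + r) + Φ (q + s) + Φ (r + s)) +
      (Φ p + Φ q + Φ r + Φ s) - Φ 0) = 0 := by
    rw [← h2]
    abel
  exact sub_eq_zero.1 h3

end

end NPK
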