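import Pool.Agent.NPK.Tor
import Pool.Agent.Nil.NilSeq

set_option autoImplicit false

/-!
# NPK / Phs : characters of polynomial sequences are polynomial phases

`G` nilpotent, `N` a subgroup, `χ` multiplicative and unimodular on `N`, `g` a polynomial sequence
of `G` with `V ^ (-n) * g n ∈ N` for all `n`: then `χ (V ^ (-n) * g n)` is a polynomial phase.
-/

namespace NPK
open Pool.Nil

noncomputable section

lemma df_iter_zero_of_le {Φ : ℤ → UnitAddCircle} {k l : ℕ} (h : df^[k] Φ = 0) (hkl : k ≤ l) :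
    df^[l] Φ = 0 := by
  induction l, hkl using Nat.le_induction with
  | base => exact h
  | succ l _ ih =>
    rw [Function.iterate_succ_apply', ih]
    funext n
    exact sub_self _

lemma df_iter_add (Φ Ψ : ℤ → UnitAddCircle) (k : ℕ) :
    df^[k] (Φ + Ψ) = df^[k] Φ + df^[k] Ψ := by
  induction k with
  | zero => rfl
  | succ k ih =>
    rw [Function.iterate_succ_apply', Function.iterate_succ_apply', Function.iterate_succ_apply',
      ih]
    funext n
    show (df^[k] Φ (n + 1) + df^[k] Ψ (n + 1)) - (df^[k] Φ n + df^[k] Ψ n) =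
      (df^[k] Φ (n + 1) - df^[k] Φ n) + (df^[k] Ψ (n + 1) - df^[k] Ψ n)
    abel

/-- polynomial phases -/
def Ph (Φ : ℤ → UnitAddCircle) : Prop := ∃ k : ℕ, df^[k] Φ = 0

lemma Ph.zero : Ph 0 := ⟨0, rfl⟩

lemma Ph.add {Φ Ψ : ℤ → UnitAddCircle} (h1 : Ph Φ) (h2 : Ph Ψ) : Ph (Φ + Ψ) := by
  obtain ⟨k, hk⟩ := h1
  obtain ⟨l, hl⟩ := h2
  refine ⟨max k l, ?_⟩
  rw [df_iter_add, df_iter_zero_of_le hk (le_max_left _ _),
    df_iter_zero_of_le hl (le_max_right _ _), add_zero]

lemma Ph.sum {ι : Type} (s : Finset ι) (Φ : ι → ℤ → UnitAddCircle) (h : ∀ i ∈ s, Ph (Φ i)) :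
    Ph (∑ i ∈ s, Φ i) := by
  classical
  induction s using Finset.induction_on with
  | empty => rw [Finset.sum_empty]; exact Ph.zero
  | insert a s ha ih =>
    rw [Finset.sum_insert ha]
    exact (h a (Finset.mem_insert_self a s)).add
      (ih fun i hi => h i (Finset.mem_insert_of_mem hi))

variable {G : Type} [Group G]

lemma exists_psi {N : Subgroup G} {χ : G → ℂ} (h1 : ∀ ν ∈ N, ‖χ ν‖ = 1) :
    ∃ ψ : G → UnitAddCircle, ∀ ν ∈ N, (AddCircle.toCircle (ψ ν) : ℂ) = χ ν := by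
  have h : ∀ ν : G, ∃ θ : UnitAddCircle, ν ∈ N → (AddCircle.toCircle θ : ℂ) = χ ν := by
    intro ν
    by_cases hν : ν ∈ N
    · refine ⟨(AddCircle.homeomorphCircle one_ne_zero).symm
        ⟨χ ν, mem_sphere_zero_iff_norm.2 (h1 ν hν)⟩, fun _ => ?_⟩
      rw [← AddCircle.homeomorphCircle_apply one_ne_zero, Homeomorph.apply_symm_apply]
    · exact ⟨0, fun h => absurd h hν⟩
  choose ψ hψ using h
  exact ⟨ψ, hψ⟩

lemma dz_iter_mem {N : Subgroup G} {g : ℤ → G} (hg : ∀ n, g n ∈ N) (a : ℕ) :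
    ∀ n, dz^[a] g n ∈ N := by
  induction a with
  | zero => exact hg
  | succ a ih =>
    intro n
    rw [Function.iterate_succ_apply']
    exact N.mul_mem (N.inv_mem (ih n)) (ih (n + 1))

lemma isSeq_iter {F : ℕ → Subgroup G} {i : ℕ} {g : ℤ → G} (hg : IsSeq F i g) (a : ℕ) :
    IsSeq F (i + a) (dz^[a] g) := by
  induction a with
  | zero => exact hg
  | succ a ih =>
    rw [Function.iterate_succ_apply']
    exact ih.diff

theorem phase_of_char [Group.IsNilpotent G] {d : ℕ} (T : Fin d → G) (P : Fin d → Polynomial ℤ)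
    (V : G) (N : Subgroup G) (hν : ∀ n : ℤ, V ^ (-n) * pseq T P n ∈ N) (χ : G → ℂ)
    (h1 : ∀ ν ∈ N, ‖χ ν‖ = 1) (h2 : ∀ a ∈ N, ∀ b ∈ N, χ (a * b) = χ a * χ b) :
    ∃ Φ : ℤ → UnitAddCircle, Ph Φ ∧
      ∀ n : ℤ, (AddCircle.toCircle (Φ n) : ℂ) = χ (V ^ (-n) * pseq T P n) := by
  obtain ⟨ψ, hψ⟩ := exists_psi h1
  have hinj : Function.Injective (AddCircle.toCircle : UnitAddCircle → Circle) :=
    AddCircle.injective_toCircle one_ne_zero
  have hmul : ∀ a ∈ N, ∀ b ∈ N, ψ (a * b) = ψ a + ψ b := by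
    intro a ha b hb
    apply hinj
    apply Subtype.ext
    rw [AddCircle.toCircle_add, Circle.coe_mul, hψ a ha, hψ b hb, hψ _ (N.mul_mem ha hb), h2 a ha b hb]
  have hone : ψ 1 = 0 := by
    have := hmul 1 N.one_mem 1 N.one_mem
    rw [mul_one] at this
    exact left_eq_add.1 this
  have hdiv : ∀ a ∈ N, ∀ b ∈ N, ψ (a⁻¹ * b) = ψ b - ψ a := by
    intro a ha b hb
    have h3 := hmul a ha (a⁻¹ * b) (N.mul_mem (N.inv_mem ha) hb)
    rw [mul_inv_cancel_left] at h3
    rw [h3, add_sub_cancel_left]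
  set g : ℤ → G := fun n => V ^ (-n) * pseq T P n with hg
  have hiter : ∀ a : ℕ, df^[a] (fun n => ψ (g n)) = fun n => ψ (dz^[a] g n) := by
    intro a
    induction a with
    | zero => rfl
    | succ a ih =>
      rw [Function.iterate_succ_apply', ih, Function.iterate_succ_apply']
      funext n
      exact (hdiv _ (dz_iter_mem hν a n) _ (dz_iter_mem hν a (n + 1))).symm
  set p := max 1 (Finset.univ.sup fun i => (P i).natDegree) with hp
  have hPp : ∀ i, (P i).natDegree ≤ p := fun i =>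
    (Finset.le_sup (f := fun i => (P i).natDegree) (Finset.mem_univ i)).trans (le_max_right _ _)
  have hV : IsSeq (Pool.Lib.PolySeq.lcF G p) 0 (fun n : ℤ => V ^ (-n)) := by
    have h3 := NilSeq.isSeq_pseq (NilSeq.filt_lcF (G := G) p) (NilSeq.lcF_self p)
      (fun _ : Fin 1 => V) (fun _ : Fin 1 => -Polynomial.X) (fun i => by
        rw [Polynomial.natDegree_neg, Polynomial.natDegree_X]
        exact le_max_left _ _)
    have e : pseq (fun _ : Fin 1 => V) (fun _ : Fin 1 => (-Polynomial.X : Polynomial ℤ)) =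
        fun n : ℤ => V ^ (-n) := by
      funext n
      simp [pseq]
    rwa [e] at h3
  have hs : IsSeq (Pool.Lib.PolySeq.lcF G p) 0 g :=
    hV.mul (NilSeq.filt_lcF p)
      (NilSeq.isSeq_pseq (NilSeq.filt_lcF (G := G) p) (NilSeq.lcF_self p) T P hPp)
  refine ⟨fun n => ψ (g n), ⟨(p + 1) * 2 ^ Group.nilpotencyClass G, ?_⟩, fun n => hψ _ (hν n)⟩
  rw [hiter]
  funext n
  have h4 := (isSeq_iter hs ((p + 1) * 2 ^ Group.nilpotencyClass G)).val n
  rw [zero_add, NilSeq.lcF_bot, Subgroup.mem_bot] at h4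
  rw [h4, hone]
  rfl

end

end NPK
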