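import Pool.Agent.NPK.Wgt

set_option autoImplicit false

/-!
# NPK / Skw : two powers with a polynomial phase which depends on the point

`Φ n x` a polynomial phase for every `x`, invariant under `V_0`, `V_1` as a function of `x`.  The
averages of `e(Φ n x) f_0(V_0^n x) f_1(V_1^n x)` are averages of two functions along the powers of
`(x, w) ↦ (V_0 x, B w + v x)` and `(x, w) ↦ (V_1 x, B w)`, which generate a nilpotent group.
-/

namespace NPK
open MeasureTheory Filter NP2
open scoped ENNReal Topology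

noncomputable section

variable {X : Type}

/-- invariant functions with values in the torus -/
def IvF (K : Subgroup (Equiv.Perm X)) (k : ℕ) : AddSubgroup (X → TW k) where
  carrier := {c | ∀ γ ∈ K, ∀ x, c (γ x) = c x}
  zero_mem' := fun _ _ _ => rfl
  add_mem' := by
    intro a b ha hb γ hγ x
    show a (γ x) + b (γ x) = a x + b x
    rw [ha γ hγ, hb γ hγ]
  neg_mem' := by
    intro a ha γ hγ x
    show -a (γ x) = -a x
    rw [ha γ hγ]

/-- the shift of the coordinates, pointwise -/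
def NI (K : Subgroup (Equiv.Perm X)) (k : ℕ) : AddMonoid.End (IvF K k) where
  toFun c := ⟨fun x => NN k (c.1 x), fun γ hγ x => by
    show NN k (c.1 (γ x)) = NN k (c.1 x)
    rw [c.2 γ hγ]⟩
  map_zero' := by
    apply Subtype.ext
    funext x
    exact map_zero _
  map_add' a b := by
    apply Subtype.ext
    funext x
    exact map_add _ _ _

lemma NI_apply (K : Subgroup (Equiv.Perm X)) (k : ℕ) (c : IvF K k) (x : X) :
    (NI K k c).1 x = NN k (c.1 x) := rfl

lemma NI_pow (K : Subgroup (Equiv.Perm X)) (k : ℕ) (j : ℕ) (c : IvF K k) (x : X) :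
    ((NI K k ^ j) c).1 x = (NN k ^ j) (c.1 x) := by
  induction j with
  | zero => rfl
  | succ j ih =>
    have e : (NI K k ^ (j + 1)) c = NI K k ((NI K k ^ j) c) := by
      rw [pow_succ']
      rfl
    have e2 : (NN k ^ (j + 1)) (c.1 x) = NN k ((NN k ^ j) (c.1 x)) := by
      rw [pow_succ']
      rfl
    rw [e, e2, NI_apply, ih]

lemma NI_nil (K : Subgroup (Equiv.Perm X)) (k : ℕ) : NI K k ^ (k + 1) = 0 := by
  refine AddMonoidHom.ext fun c => ?_
  apply Subtype.ext
  funext x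
  refine (NI_pow K k (k + 1) c x).trans ?_
  rw [NN_nil]
  rfl

/-- the unit `1 + N`, pointwise -/
def uI (K : Subgroup (Equiv.Perm X)) (k : ℕ) : (AddMonoid.End (IvF K k))ˣ :=
  (IsNilpotent.isUnit_one_add (⟨k + 1, NI_nil K k⟩ : IsNilpotent (NI K k))).unit

lemma uI_val (K : Subgroup (Equiv.Perm X)) (k : ℕ) :
    (uI K k : AddMonoid.End (IvF K k)) = 1 + NI K k := IsUnit.unit_spec _

lemma sp_uI_one (K : Subgroup (Equiv.Perm X)) (k : ℕ) (c : IvF K k) (x : X) :
    (sp (uI K k) 1 c).1 x = sp (us k) 1 (c.1 x) := by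
  rw [sp_apply, sp_apply, zpow_one, zpow_one, uI_val, us_val]
  rfl

lemma sp_uI (K : Subgroup (Equiv.Perm X)) (k : ℕ) (n : ℤ) (c : IvF K k) (x : X) :
    (sp (uI K k) n c).1 x = sp (us k) n (c.1 x) := by
  induction n using Int.induction_on generalizing c with
  | zero => rw [sp_zero, sp_zero]
  | succ n ih => rw [← sp_sp, ih, sp_uI_one, sp_sp]
  | pred n ih =>
    have e1 : sp (uI K k) (-(n : ℤ)) c = sp (uI K k) 1 (sp (uI K k) (-(n : ℤ) - 1) c) := by
      rw [sp_sp, add_sub_cancel]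
    have e2 := ih c
    rw [e1, sp_uI_one] at e2
    have e3 : sp (us k) (-(n : ℤ)) (c.1 x) = sp (us k) 1 (sp (us k) (-(n : ℤ) - 1) (c.1 x)) := by
      rw [sp_sp, add_sub_cancel]
    rw [e3] at e2
    exact (sp (us k) 1).injective e2

/-- constant functions -/
def cst (K : Subgroup (Equiv.Perm X)) (k : ℕ) (w : TW k) : IvF K k :=
  ⟨fun _ => w, fun _ _ _ => rfl⟩

/-- the action on the product: the map -/
def thf (K : Subgroup (Equiv.Perm X)) (k : ℕ) (p : K × Aff (uI K k)) (q : X × TW k) : X × TW k :=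
  ((p.1 : Equiv.Perm X) q.1, ((p.2 : Equiv.Perm (IvF K k)) (cst K k q.2)).1 q.1)

lemma thf_eq (K : Subgroup (Equiv.Perm X)) (k : ℕ) (p : K × Aff (uI K k)) {n : ℤ} {u : IvF K k}
    (h : ∀ c, (p.2 : Equiv.Perm (IvF K k)) c = sp (uI K k) n c + u) (q : X × TW k) :
    thf K k p q = ((p.1 : Equiv.Perm X) q.1, sp (us k) n q.2 + u.1 q.1) := by
  unfold thf
  rw [h]
  show (_, (sp (uI K k) n (cst K k q.2)).1 q.1 + u.1 q.1) = _
  rw [sp_uI]
  rfl

lemma thf_mul (K : Subgroup (Equiv.Perm X)) (k : ℕ) (p p' : K × Aff (uI K k)) (q : X × TW k) :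
    thf K k (p * p') q = thf K k p (thf K k p' q) := by
  obtain ⟨n, u, h⟩ := p.2.2
  obtain ⟨n', u', h'⟩ := p'.2.2
  have h2 : ∀ c, ((p * p').2 : Equiv.Perm (IvF K k)) c =
      sp (uI K k) (n + n') c + (sp (uI K k) n u' + u) := by
    intro c
    show (p.2 : Equiv.Perm (IvF K k)) ((p'.2 : Equiv.Perm (IvF K k)) c) = _
    rw [h', h, sp_add, sp_sp, add_assoc]
  rw [thf_eq K k _ h2, thf_eq K k p h, thf_eq K k p' h']
  apply Prod.ext
  · rfl
  · show sp (us k) (n + n') q.2 + ((sp (uI K k) n u').1 q.1 + u.1 q.1) =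
      sp (us k) n (sp (us k) n' q.2 + u'.1 q.1) + u.1 ((p'.1 : Equiv.Perm X) q.1)
    rw [sp_uI, sp_add, sp_sp, u.2 _ p'.1.2, add_assoc]

lemma thf_one (K : Subgroup (Equiv.Perm X)) (k : ℕ) (q : X × TW k) : thf K k 1 q = q := rfl

/-- the action on the product -/
def thh (K : Subgroup (Equiv.Perm X)) (k : ℕ) : K × Aff (uI K k) →* Equiv.Perm (X × TW k) where
  toFun p :=
    { toFun := thf K k p
      invFun := thf K k p⁻¹
      left_inv := fun q => by rw [← thf_mul, inv_mul_cancel, thf_one]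
      right_inv := fun q => by rw [← thf_mul, mul_inv_cancel, thf_one] }
  map_one' := by
    ext q : 1
    exact thf_one K k q
  map_mul' p p' := by
    ext q : 1
    exact thf_mul K k p p' q

/-- the shear -/
def shr {k : ℕ} (v : X → TW k) : Equiv.Perm (X × TW k) where
  toFun q := (q.1, q.2 + v q.1)
  invFun q := (q.1, q.2 - v q.1)
  left_inv q := by
    show (q.1, q.2 + v q.1 - v q.1) = q
    rw [add_sub_cancel_right]
  right_inv q := by
    show (q.1, q.2 - v q.1 + v q.1) = q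
    rw [sub_add_cancel]

/-- the first map -/
def U0 {k : ℕ} (V : Equiv.Perm X) (v : X → TW k) : Equiv.Perm (X × TW k) :=
  shr v * prh X (TW k) (V, Bt k)

lemma U0_apply {k : ℕ} (V : Equiv.Perm X) (v : X → TW k) (hv : ∀ x, v (V x) = v x) (x : X)
    (w : TW k) : U0 V v (x, w) = (V x, At k (v x) w) := by
  show (V x, Bt k w + v (V x)) = (V x, Bt k w + v x)
  rw [hv]

lemma nil_skw {k : ℕ} {V₀ V₁ : Equiv.Perm X}
    (h1 : Group.IsNilpotent (Subgroup.closure {V₀, V₁})) (v : X → TW k)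
    (hv0 : ∀ x, v (V₀ x) = v x) (hv1 : ∀ x, v (V₁ x) = v x) :
    Group.IsNilpotent (Subgroup.closure {U0 V₀ v, prh X (TW k) (V₁, Bt k)}) := by
  have := h1
  obtain ⟨K, hK⟩ : ∃ K, K = Subgroup.closure {V₀, V₁} := ⟨_, rfl⟩
  rw [← hK] at this
  have hV0 : V₀ ∈ K := hK ▸ Subgroup.subset_closure (by simp)
  have hV1 : V₁ ∈ K := hK ▸ Subgroup.subset_closure (by simp)
  have hvK : v ∈ IvF K k := by
    intro γ hγ
    rw [hK] at hγ
    induction hγ using Subgroup.closure_induction with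
    | mem γ hγ =>
      simp only [Set.mem_insert_iff, Set.mem_singleton_iff] at hγ
      rcases hγ with rfl | rfl
      · exact hv0
      · exact hv1
    | one => intro x; rfl
    | mul a b _ _ iha ihb =>
      intro x
      rw [Equiv.Perm.mul_apply, iha, ihb]
    | inv a _ iha =>
      intro x
      have h5 := iha (a⁻¹ x)
      rw [← Equiv.Perm.mul_apply, mul_inv_cancel, Equiv.Perm.one_apply] at h5
      exact h5.symm
  have h2 : Group.IsNilpotent (Aff (uI K k)) :=
    aff_nilpotent (NI K k) (uI K k) (uI_val K k) (k + 1) (NI_nil K k)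
  have h3 : Group.IsNilpotent (thh K k).range :=
    Group.nilpotent_of_surjective (thh K k).rangeRestrict (thh K k).rangeRestrict_surjective
  refine nil_sub ?_ h3
  rw [Subgroup.closure_le]
  have e0 : sp (uI K k) 1 ∈ Aff (uI K k) := ⟨1, 0, fun c => by rw [add_zero]⟩
  have e1 : Equiv.addRight (⟨v, hvK⟩ : IvF K k) * sp (uI K k) 1 ∈ Aff (uI K k) :=
    ⟨1, ⟨v, hvK⟩, fun c => rfl⟩
  intro τ hτ
  simp only [Set.mem_insert_iff, Set.mem_singleton_iff] at hτ
  rcases hτ with rfl | rfl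
  · refine ⟨(⟨V₀, hV0⟩, ⟨_, e1⟩), ?_⟩
    ext q : 1
    show thf K k _ q = _
    rw [thf_eq K k _ (n := 1) (u := ⟨v, hvK⟩) (fun c => rfl)]
    obtain ⟨x, w⟩ := q
    rw [U0_apply _ _ hv0]
    rfl
  · refine ⟨(⟨V₁, hV1⟩, ⟨_, e0⟩), ?_⟩
    ext q : 1
    show thf K k _ q = _
    rw [thf_eq K k _ (n := 1) (u := 0) (fun c => by rw [add_zero])]
    obtain ⟨x, w⟩ := q
    show (V₁ x, Bt k w + 0) = (V₁ x, Bt k w)
    rw [add_zero]

lemma MI_U0 [MeasurableSpace X] {μ : Measure X} [IsProbabilityMeasure μ] {k : ℕ}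
    {V : Equiv.Perm X} (hV : MI μ V) {v : X → TW k} (hv : Measurable v) :
    MI (μ.prod (volume : Measure (TW k))) (U0 V v) := by
  have hp1 : IsProbabilityMeasure (volume : Measure UnitAddCircle) :=
    ⟨UnitAddCircle.measure_univ⟩
  refine MI.mul (MI.of ?_ ?_) (MI_prh hV (MI_Bt k))
  · exact measurable_fst.prodMk (measurable_snd.sub (hv.comp measurable_fst))
  · exact (MeasurePreserving.id μ).skew_product (g := fun x w => w + v x)
      (measurable_snd.add (hv.comp measurable_fst))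
      (Eventually.of_forall fun x => (measurePreserving_add_right volume (v x)).map_eq)

end

end NPK
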