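import Pool.Agent.NPK.Fac
import Pool.Agent.NPK.Ev3
import Pool.Agent.PWM.NilPh

set_option autoImplicit false

/-!
# NPK / Spl3 : three powers with a phase of degree at most three

The commutator subgroup acts on the functions, with one possible exception, by invariant
functions.
-/

open Finset MeasureTheory Filter Topology
open scoped ENNReal commutatorElement

namespace NPK
open Pool.PWZ Pool.PWM NP2

noncomputable section

variable {X : Type}

/-- the commutator subgroup acts on `h` by invariant functions, everywhere version -/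
structure EigP (G : Subgroup (Equiv.Perm X)) (h : X → ℂ) (χ : G → X → ℂ) : Prop where
  norm : ∀ ν ∈ commutator G, ∀ x, ‖χ ν x‖ ≤ 1
  inv : ∀ (γ ν : G), ν ∈ commutator G → ∀ x, χ ν ((γ : Equiv.Perm X) x) = χ ν x
  eig : ∀ (γ ν : G), ν ∈ commutator G → ∀ x, h (((γ * ν : G) : Equiv.Perm X) x) =
    χ ν x * h ((γ : Equiv.Perm X) x)

lemma norm_toCircle (t : UnitAddCircle) : ‖(AddCircle.toCircle t : ℂ)‖ ≤ 1 :=
  (Circle.norm_coe _).le

/-- a phase of degree at most three splits over the faces -/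
lemma phase_split {Φ : ℤ → UnitAddCircle} (hΦ : df^[4] Φ = 0) :
    ∃ (C : (Fin 3 → ℤ) → ℂ) (A : Fin 3 → (Fin 3 → ℤ) → ℂ),
      (∀ a, ‖C a‖ ≤ 1) ∧ (∀ i a, ‖A i a‖ ≤ 1) ∧
      ∀ (a : Fin 3 → ℤ) (n : ℤ), (AddCircle.toCircle (Φ n) : ℂ) =
        C a * ∏ i, A i (Function.update a i (a i + n)) := by
  refine ⟨fun a => AddCircle.toCircle (Φ (-a 0 + -a 1 + -a 2) -
      (Φ (-a 0 + -a 1) + Φ (-a 0 + -a 2) + Φ (-a 1 + -a 2)) +
      (Φ (-a 0) + Φ (-a 1) + Φ (-a 2)) - Φ 0),
    ![fun w => AddCircle.toCircle (Φ (sg w + -w 1 + -w 2) - (Φ (sg w + -w 1) + Φ (sg w + -w 2)) +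
        Φ (sg w)),
      fun w => AddCircle.toCircle (Φ (sg w + -w 0 + -w 2) - Φ (sg w + -w 0)),
      fun w => AddCircle.toCircle (Φ (sg w + -w 0 + -w 1))],
    fun a => norm_toCircle _, fun i a => ?_, fun a n => ?_⟩
  · fin_cases i <;> exact norm_toCircle _
  · rw [Fin.prod_univ_three]
    show _ = (AddCircle.toCircle _ : ℂ) * ((AddCircle.toCircle _ : ℂ) *
      (AddCircle.toCircle _ : ℂ) * (AddCircle.toCircle _ : ℂ))
    rw [← Circle.coe_mul, ← Circle.coe_mul, ← Circle.coe_mul, ← AddCircle.toCircle_add,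
      ← AddCircle.toCircle_add, ← AddCircle.toCircle_add]
    congr 2
    have hs : ∀ i, sg (Function.update a i (a i + n)) = sg a + n := fun i => sg_update a i n
    rw [hs, hs, hs]
    have u01 : Function.update a 0 (a 0 + n) 1 = a 1 := Function.update_of_ne (by decide) _ _
    have u02 : Function.update a 0 (a 0 + n) 2 = a 2 := Function.update_of_ne (by decide) _ _
    have u10 : Function.update a 1 (a 1 + n) 0 = a 0 := Function.update_of_ne (by decide) _ _
    have u12 : Function.update a 1 (a 1 + n) 2 = a 2 := Function.update_of_ne (by decide) _ _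
    have u20 : Function.update a 2 (a 2 + n) 0 = a 0 := Function.update_of_ne (by decide) _ _
    have u21 : Function.update a 2 (a 2 + n) 1 = a 1 := Function.update_of_ne (by decide) _ _
    rw [u01, u02, u10, u12, u20, u21]
    have h1 := incl_excl hΦ (sg a + n) (-a 0) (-a 1) (-a 2)
    have h2 : sg a + n + -a 0 + -a 1 + -a 2 = n := by
      unfold sg
      rw [Fin.sum_univ_three]
      ring
    rw [h2] at h1
    rw [h1]
    abel

/-- the splitting lemma -/
theorem split3 {G : Subgroup (Equiv.Perm X)} (i0 : Fin 3) (T : Fin 3 → G)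
    (f : Fin 3 → X → ℂ) (χ : Fin 3 → G → X → ℂ) (H : ∀ i, i ≠ i0 → EigP G (f i) (χ i))
    (hf : ∀ i x, ‖f i x‖ ≤ 1) (Φ : ℤ → X → UnitAddCircle)
    (hΦi : ∀ (γ : G) n x, Φ n ((γ : Equiv.Perm X) x) = Φ n x)
    (hΦ : ∀ x, df^[4] (fun n => Φ n x) = 0) (x : X) :
    ∃ (θ : (Fin 3 → ℤ) → ℂ) (F : Fin 3 → (Fin 3 → ℤ) → ℂ),
      (∀ a, ‖θ a‖ ≤ 1) ∧ (∀ i a, ‖F i a‖ ≤ 1) ∧
      ∀ a n, (AddCircle.toCircle (Φ n (((Gm T i0 a : G) : Equiv.Perm X) x)) : ℂ) *
        ∏ i, f i (((T i : G) : Equiv.Perm X) ^ n <| ((Gm T i0 a : G) : Equiv.Perm X) x) =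
        θ a * ∏ i, F i (Function.update a i (a i + n)) := by
  classical
  obtain ⟨C, A, hC, hA, hCA⟩ := phase_split (hΦ x)
  refine ⟨fun a => C a * ∏ i, (if i = i0 then 1 else χ i (Nu T i0 i a) x),
    fun i w => A i w * f i (((T i ^ w i * Wo T i w : G) : Equiv.Perm X) x), ?_, ?_, ?_⟩
  · intro a
    refine norm_mul_le_one' (hC _) (norm_prod_le_one _ _ fun i _ => ?_)
    by_cases hi : i = i0
    · rw [if_pos hi]; simp
    · rw [if_neg hi]; exact (H i hi).norm _ (Nu_mem T i0 i a) x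
  · intro i a
    exact norm_mul_le_one' (hA _ _) (hf _ _)
  · intro a n
    have h1 : ∀ i, f i (((T i : G) : Equiv.Perm X) ^ n <| ((Gm T i0 a : G) : Equiv.Perm X) x) =
        (if i = i0 then 1 else χ i (Nu T i0 i a) x) *
        f i (((T i ^ (Function.update a i (a i + n) i) *
          Wo T i (Function.update a i (a i + n)) : G) : Equiv.Perm X) x) := by
      intro i
      rw [Function.update_self, Wo_update]
      by_cases hi : i = i0
      · subst hi
        rw [if_pos rfl, one_mul, ← Equiv.Perm.mul_apply, ← Subgroup.coe_zpow,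
          ← Subgroup.coe_mul]
        congr 3
        unfold Gm
        rw [← mul_assoc, ← zpow_add, add_comm]
      · rw [if_neg hi]
        have h3 := (H i hi).eig (T i ^ (a i + n)) (Nu T i0 i a) (Nu_mem T i0 i a)
          (((Wo T i a : G) : Equiv.Perm X) x)
        rw [(H i hi).inv _ _ (Nu_mem T i0 i a)] at h3
        rw [← Equiv.Perm.mul_apply, ← Equiv.Perm.mul_apply, ← Subgroup.coe_mul,
          ← Subgroup.coe_mul] at h3
        rw [← h3, ← Equiv.Perm.mul_apply, ← Subgroup.coe_zpow, ← Subgroup.coe_mul]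
        congr 3
        rw [Gm_eq T i0 i a, ← mul_assoc, ← mul_assoc, ← zpow_add, add_comm]
    rw [hΦi, hCA a n, Finset.prod_congr rfl fun i _ => h1 i, Finset.prod_mul_distrib,
      Finset.prod_mul_distrib]
    ring

end

end NPK
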