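import Pool.Agent.NPK.Uni
import Pool.Agent.NP2.EndC2

set_option autoImplicit false

/-!
# NPK / Tor : the torus system of a polynomial phase

`Φ : ℤ → UnitAddCircle` with `df^[k+1] Φ = 0`, `df Φ n = Φ (n+1) - Φ n`.  On the torus `TW k` of
dimension `k + 1` let `B w = w + N w`, `N` the shift of the coordinates, and `A w = B w + v` with
`v i = (df^[i+1] Φ) 0`.  Then `A ^ n w - B ^ n w = (df^[i] Φ n - df^[i] Φ 0)_i` for all `n` and `w`.
-/

namespace NPK
open MeasureTheory NP2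

noncomputable section

/-- difference -/
def df (Φ : ℤ → UnitAddCircle) : ℤ → UnitAddCircle := fun n => Φ (n + 1) - Φ n

/-- the torus -/
abbrev TW (k : ℕ) : Type := Fin (k + 1) → UnitAddCircle

/-- shift of the coordinates -/
def NN (k : ℕ) : AddMonoid.End (TW k) where
  toFun w i := if h : (i : ℕ) + 1 < k + 1 then w ⟨i + 1, h⟩ else 0
  map_zero' := by
    funext i
    by_cases h : (i : ℕ) + 1 < k + 1
    · simp [h]
    · simp [h]
  map_add' x y := by
    funext i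
    show (if h : (i : ℕ) + 1 < k + 1 then (x + y) ⟨i + 1, h⟩ else 0) =
      (if h : (i : ℕ) + 1 < k + 1 then x ⟨i + 1, h⟩ else 0) +
        (if h : (i : ℕ) + 1 < k + 1 then y ⟨i + 1, h⟩ else 0)
    by_cases h : (i : ℕ) + 1 < k + 1
    · rw [dif_pos h, dif_pos h, dif_pos h]
      rfl
    · rw [dif_neg h, dif_neg h, dif_neg h, add_zero]

lemma NN_apply (k : ℕ) (w : TW k) (i : Fin (k + 1)) :
    NN k w i = if h : (i : ℕ) + 1 < k + 1 then w ⟨i + 1, h⟩ else 0 := rfl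

lemma NN_pow (k : ℕ) (w : TW k) (j : ℕ) (i : Fin (k + 1)) :
    (NN k ^ j) w i = if h : (i : ℕ) + j < k + 1 then w ⟨i + j, h⟩ else 0 := by
  induction j generalizing i with
  | zero =>
    have h : (i : ℕ) + 0 < k + 1 := i.2
    rw [dif_pos h]
    rfl
  | succ j ih =>
    have e : (NN k ^ (j + 1)) w = NN k ((NN k ^ j) w) := by
      rw [pow_succ']
      rfl
    rw [e, NN_apply]
    by_cases h : (i : ℕ) + 1 < k + 1
    · rw [dif_pos h, ih]
      by_cases h2 : (i : ℕ) + (j + 1) < k + 1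
      · have h3 : ((⟨(i : ℕ) + 1, h⟩ : Fin (k + 1)) : ℕ) + j < k + 1 := by
          show (i : ℕ) + 1 + j < k + 1
          omega
        rw [dif_pos h3, dif_pos h2]
        congr 1
        apply Fin.ext
        show (i : ℕ) + 1 + j = (i : ℕ) + (j + 1)
        omega
      · have h3 : ¬ (((⟨(i : ℕ) + 1, h⟩ : Fin (k + 1)) : ℕ) + j < k + 1) := by
          show ¬ ((i : ℕ) + 1 + j < k + 1)
          omega
        rw [dif_neg h3, dif_neg h2]
    · have h2 : ¬ ((i : ℕ) + (j + 1) < k + 1) := by omega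
      rw [dif_neg h, dif_neg h2]

lemma NN_nil (k : ℕ) : NN k ^ (k + 1) = 0 := by
  ext w i
  rw [NN_pow, dif_neg (by omega)]
  rfl

/-- the unit `1 + N` -/
def us (k : ℕ) : (AddMonoid.End (TW k))ˣ :=
  (IsNilpotent.isUnit_one_add (⟨k + 1, NN_nil k⟩ : IsNilpotent (NN k))).unit

lemma us_val (k : ℕ) : (us k : AddMonoid.End (TW k)) = 1 + NN k := IsUnit.unit_spec _

/-- the linear map -/
def Bt (k : ℕ) : Equiv.Perm (TW k) := sp (us k) 1

lemma Bt_apply (k : ℕ) (w : TW k) : Bt k w = w + NN k w := by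
  show sp (us k) 1 w = _
  rw [sp_apply, zpow_one, us_val]
  rfl

/-- the affine map -/
def At (k : ℕ) (v : TW k) : Equiv.Perm (TW k) := Equiv.addRight v * Bt k

lemma At_apply (k : ℕ) (v w : TW k) : At k v w = w + NN k w + v := by
  show Bt k w + v = _
  rw [Bt_apply]

lemma continuous_NN (k : ℕ) : Continuous (NN k) := by
  refine continuous_pi fun i => ?_
  by_cases h : (i : ℕ) + 1 < k + 1
  · have e : (fun w => NN k w i) = fun w : TW k => w ⟨i + 1, h⟩ := by
      funext w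
      rw [NN_apply, dif_pos h]
    rw [e]
    exact continuous_apply _
  · have e : (fun w => NN k w i) = fun _ : TW k => (0 : UnitAddCircle) := by
      funext w
      rw [NN_apply, dif_neg h]
    rw [e]
    exact continuous_const

lemma continuous_Bt (k : ℕ) : Continuous (Bt k) := by
  have e : ⇑(Bt k) = fun w => w + NN k w := by
    funext w
    rw [Bt_apply]
  rw [e]
  exact continuous_id.add (continuous_NN k)

lemma MI_Bt (k : ℕ) : MI (volume : Measure (TW k)) (Bt k) := by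
  have h1 : Measurable ⇑(Bt k).symm :=
    (Continuous.homeoOfEquivCompactToT2 (f := Bt k) (continuous_Bt k)).symm.continuous.measurable
  refine MI.of h1 ?_
  obtain ⟨φ, hφ⟩ : ∃ φ : TW k →+ TW k, ⇑φ = ⇑(Bt k) :=
    ⟨{ toFun := Bt k
       map_zero' := by
        show sp (us k) 1 0 = 0
        rw [sp_apply, map_zero]
       map_add' := fun x y => sp_add (us k) 1 x y }, rfl⟩
  have h2 : MeasurePreserving φ (volume : Measure (TW k)) volume := by
    refine AddMonoidHom.measurePreserving ?_ ?_ rfl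
    · rw [hφ]
      exact continuous_Bt k
    · rw [hφ]
      exact (Bt k).surjective
  rw [hφ] at h2
  exact h2

lemma MI_At (k : ℕ) (v : TW k) : MI (volume : Measure (TW k)) (At k v) := by
  refine MI.mul ⟨measurePreserving_add_right _ v, ?_⟩ (MI_Bt k)
  have e : ⇑(Equiv.addRight v)⁻¹ = fun w : TW k => w + -v := by
    funext w
    rw [Equiv.Perm.inv_eq_iff_eq]
    simp
  rw [e]
  exact measurePreserving_add_right _ (-v)

lemma Bt_mem (k : ℕ) : Bt k ∈ Aff (us k) := ⟨1, 0, fun x => by rw [add_zero]; rfl⟩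

lemma At_mem (k : ℕ) (v : TW k) : At k v ∈ Aff (us k) := ⟨1, v, fun _ => rfl⟩

lemma aff_us (k : ℕ) : Group.IsNilpotent (Aff (us k)) :=
  aff_nilpotent (NN k) (us k) (us_val k) (k + 1) (NN_nil k)

lemma Bt_zpow (k : ℕ) (n : ℤ) (w : TW k) : (Bt k ^ n) w = sp (us k) n w := by
  induction n using Int.induction_on with
  | zero => rw [zpow_zero, sp_zero]; rfl
  | succ n ih =>
    rw [add_comm (n : ℤ) 1, zpow_add, Equiv.Perm.mul_apply, ih, zpow_one]
    show sp (us k) 1 (sp (us k) n w) = _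
    rw [sp_sp]
  | pred n ih =>
    have e : (-(n : ℤ) - 1) = -1 + -(n : ℤ) := by ring
    rw [e, zpow_add, Equiv.Perm.mul_apply, ih, zpow_neg_one, Equiv.Perm.inv_eq_iff_eq]
    show _ = sp (us k) 1 (sp (us k) _ w)
    rw [sp_sp, ← add_assoc, add_neg_cancel, zero_add]

/-- the difference of the two orbits -/
def uu (k : ℕ) (Φ : ℤ → UnitAddCircle) (n : ℤ) : TW k := fun i => df^[i] Φ n - df^[i] Φ 0

/-- the translation vector -/
def vv (k : ℕ) (Φ : ℤ → UnitAddCircle) : TW k := fun i => df^[(i : ℕ) + 1] Φ 0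

lemma uu_succ (k : ℕ) (Φ : ℤ → UnitAddCircle) (hΦ : df^[k + 1] Φ = 0) (n : ℤ) :
    uu k Φ n + NN k (uu k Φ n) + vv k Φ = uu k Φ (n + 1) := by
  funext i
  have h1 : df^[(i : ℕ) + 1] Φ n = df^[(i : ℕ)] Φ (n + 1) - df^[(i : ℕ)] Φ n := by
    rw [Function.iterate_succ_apply']
    rfl
  rw [Pi.add_apply, Pi.add_apply, NN_apply]
  by_cases h : (i : ℕ) + 1 < k + 1
  · rw [dif_pos h]
    show df^[(i : ℕ)] Φ n - df^[(i : ℕ)] Φ 0 + (df^[(i : ℕ) + 1] Φ n - df^[(i : ℕ) + 1] Φ 0) +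
      df^[(i : ℕ) + 1] Φ 0 = df^[(i : ℕ)] Φ (n + 1) - df^[(i : ℕ)] Φ 0
    rw [h1]
    abel
  · rw [dif_neg h]
    have h2 : (i : ℕ) + 1 = k + 1 := by omega
    show df^[(i : ℕ)] Φ n - df^[(i : ℕ)] Φ 0 + 0 + df^[(i : ℕ) + 1] Φ 0 =
      df^[(i : ℕ)] Φ (n + 1) - df^[(i : ℕ)] Φ 0
    rw [h2, hΦ] at h1 ⊢
    have h3 : df^[(i : ℕ)] Φ (n + 1) = df^[(i : ℕ)] Φ n := by
      rw [← sub_eq_zero, ← h1]
      rfl
    rw [h3]
    show _ + 0 + 0 = _
    rw [add_zero, add_zero]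

lemma At_step (k : ℕ) (Φ : ℤ → UnitAddCircle) (hΦ : df^[k + 1] Φ = 0) (n : ℤ) (w : TW k) :
    At k (vv k Φ) ((Bt k ^ n) w + uu k Φ n) = (Bt k ^ (n + 1)) w + uu k Φ (n + 1) := by
  have h1 : (Bt k ^ (n + 1)) w = Bt k ((Bt k ^ n) w) := by
    rw [add_comm n 1, zpow_add, Equiv.Perm.mul_apply, zpow_one]
  rw [h1, Bt_apply, ← uu_succ k Φ hΦ, At_apply, map_add]
  abel

theorem At_zpow (k : ℕ) (Φ : ℤ → UnitAddCircle) (hΦ : df^[k + 1] Φ = 0) (n : ℤ) (w : TW k) :
    (At k (vv k Φ) ^ n) w = (Bt k ^ n) w + uu k Φ n := by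
  induction n using Int.induction_on with
  | zero =>
    have : uu k Φ 0 = 0 := by
      funext i
      exact sub_self _
    rw [this, zpow_zero, zpow_zero, add_zero]
  | succ n ih =>
    rw [add_comm (n : ℤ) 1, zpow_add, Equiv.Perm.mul_apply, ih, zpow_one, At_step k Φ hΦ,
      add_comm (n : ℤ) 1]
  | pred n ih =>
    have e : (-(n : ℤ) - 1) = -1 + -(n : ℤ) := by ring
    have h1 := At_step k Φ hΦ (-(n : ℤ) - 1) w
    rw [sub_add_cancel] at h1
    rw [← h1] at ih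
    rw [e, zpow_add, Equiv.Perm.mul_apply, ih, zpow_neg_one, Equiv.Perm.inv_eq_iff_eq, ← e]

/-- the observable -/
def Ft (k : ℕ) (w : TW k) : ℂ := (AddCircle.toCircle (w 0) : ℂ)

lemma continuous_Ft (k : ℕ) : Continuous (Ft k) :=
  continuous_subtype_val.comp (AddCircle.continuous_toCircle.comp (continuous_apply 0))

lemma norm_Ft (k : ℕ) (w : TW k) : ‖Ft k w‖ = 1 := Circle.norm_coe _

theorem Ft_eq (k : ℕ) (Φ : ℤ → UnitAddCircle) (hΦ : df^[k + 1] Φ = 0) (n : ℤ) (w : TW k) :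
    Ft k ((At k (vv k Φ) ^ n) w) * (starRingEnd ℂ) (Ft k ((Bt k ^ n) w)) =
      (AddCircle.toCircle (Φ n - Φ 0) : ℂ) := by
  rw [At_zpow k Φ hΦ]
  unfold Ft
  have h1 : ((Bt k ^ n) w + uu k Φ n) 0 = (Bt k ^ n) w 0 + (Φ n - Φ 0) := rfl
  rw [h1, AddCircle.toCircle_add, Circle.coe_mul, ← Circle.coe_inv_eq_conj]
  rw [mul_right_comm, ← Circle.coe_mul, mul_inv_cancel, Circle.coe_one, one_mul]

end

end NPK
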