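import Mathlib

set_option autoImplicit false

/-!
# NPK / Uni : groups of affine unipotent maps are nilpotent

`M` a commutative group, `N` a nilpotent endomorphism, `s = 1 + N`.  The group of all maps
`x ↦ s^n x + u` of `M` is nilpotent.
-/

namespace NPK

variable {M : Type} [AddCommGroup M]

/-- the range of `N^j` -/
def Rg (N : AddMonoid.End M) (j : ℕ) : AddSubgroup M := (N ^ j : AddMonoid.End M).range

lemma mem_Rg {N : AddMonoid.End M} {j : ℕ} {u : M} : u ∈ Rg N j ↔ ∃ x, (N ^ j) x = u := by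
  unfold Rg
  exact AddMonoidHom.mem_range

lemma Rg_zero (N : AddMonoid.End M) : Rg N 0 = ⊤ := by
  ext u
  rw [mem_Rg]
  simp

lemma Rg_comm {N S : AddMonoid.End M} (h : Commute S N) {j : ℕ} {u : M} (hu : u ∈ Rg N j) :
    S u ∈ Rg N j := by
  rw [mem_Rg] at hu ⊢
  obtain ⟨x, rfl⟩ := hu
  refine ⟨S x, ?_⟩
  have h2 : (N ^ j) * S = S * (N ^ j) := ((h.pow_right j).eq).symm
  exact congrArg (fun T : AddMonoid.End M => T x) h2

lemma Rg_N {N : AddMonoid.End M} {j : ℕ} {u : M} (hu : u ∈ Rg N j) : N u ∈ Rg N (j + 1) := by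
  rw [mem_Rg] at hu ⊢
  obtain ⟨x, rfl⟩ := hu
  refine ⟨x, ?_⟩
  rw [pow_succ']
  rfl

/-- `s^n - 1` moves the `j`-th range into the next one -/
lemma zpow_sub {N : AddMonoid.End M} (s : (AddMonoid.End M)ˣ)
    (hs : (s : AddMonoid.End M) = 1 + N) (n : ℤ) :
    ∀ (j : ℕ) (u : M), u ∈ Rg N j → ((s ^ n : (AddMonoid.End M)ˣ) : AddMonoid.End M) u - u ∈
      Rg N (j + 1) := by
  have hc : Commute (s : AddMonoid.End M) N := by
    rw [hs]
    exact (Commute.one_left N).add_left (Commute.refl N)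
  have hci : Commute ((s⁻¹ : (AddMonoid.End M)ˣ) : AddMonoid.End M) N := hc.units_inv_left
  have h1 : ∀ (j : ℕ) (u : M), u ∈ Rg N j → (s : AddMonoid.End M) u - u ∈ Rg N (j + 1) := by
    intro j u hu
    have h2 : (s : AddMonoid.End M) u - u = N u := by
      rw [hs]
      show u + N u - u = N u
      abel
    rw [h2]
    exact Rg_N hu
  have h1' : ∀ (j : ℕ) (u : M), u ∈ Rg N j →
      ((s⁻¹ : (AddMonoid.End M)ˣ) : AddMonoid.End M) u - u ∈ Rg N (j + 1) := by
    intro j u hu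
    have h3 : ((s⁻¹ : (AddMonoid.End M)ˣ) : AddMonoid.End M) u ∈ Rg N j := Rg_comm hci hu
    have h4 : (s : AddMonoid.End M) (((s⁻¹ : (AddMonoid.End M)ˣ) : AddMonoid.End M) u) = u := by
      have h5 : (s : AddMonoid.End M) * ((s⁻¹ : (AddMonoid.End M)ˣ) : AddMonoid.End M) = 1 := by
        rw [← Units.val_mul, mul_inv_cancel, Units.val_one]
      exact congrArg (fun T : AddMonoid.End M => T u) h5
    have h6 := (Rg N (j + 1)).neg_mem (h1 j _ h3)
    rw [h4, neg_sub] at h6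
    exact h6
  induction n using Int.induction_on with
  | zero =>
    intro j u hu
    simp
  | succ n ih =>
    intro j u hu
    have e : ((s ^ ((n : ℤ) + 1) : (AddMonoid.End M)ˣ) : AddMonoid.End M) u =
        ((s ^ (n : ℤ) : (AddMonoid.End M)ˣ) : AddMonoid.End M) ((s : AddMonoid.End M) u) := by
      rw [zpow_add_one, Units.val_mul]
      rfl
    have h7 := (Rg N (j + 1)).add_mem (ih j _ (Rg_comm hc hu)) (h1 j u hu)
    rw [e]
    simpa using h7
  | pred n ih =>
    intro j u hu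
    have e : ((s ^ (-(n : ℤ) - 1) : (AddMonoid.End M)ˣ) : AddMonoid.End M) u =
        ((s ^ (-(n : ℤ)) : (AddMonoid.End M)ˣ) : AddMonoid.End M)
          (((s⁻¹ : (AddMonoid.End M)ˣ) : AddMonoid.End M) u) := by
      rw [zpow_sub_one, Units.val_mul]
      rfl
    have h7 := (Rg N (j + 1)).add_mem (ih j _ (Rg_comm hci hu)) (h1' j u hu)
    rw [e]
    simpa using h7

/-- `s^n` as a permutation -/
def sp (s : (AddMonoid.End M)ˣ) (n : ℤ) : Equiv.Perm M where
  toFun x := ((s ^ n : (AddMonoid.End M)ˣ) : AddMonoid.End M) x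
  invFun x := ((s ^ (-n) : (AddMonoid.End M)ˣ) : AddMonoid.End M) x
  left_inv x := by
    have h : ((s ^ (-n) : (AddMonoid.End M)ˣ) : AddMonoid.End M) *
        ((s ^ n : (AddMonoid.End M)ˣ) : AddMonoid.End M) = 1 := by
      rw [← Units.val_mul, ← zpow_add, neg_add_cancel, zpow_zero, Units.val_one]
    exact congrArg (fun T : AddMonoid.End M => T x) h
  right_inv x := by
    have h : ((s ^ n : (AddMonoid.End M)ˣ) : AddMonoid.End M) *
        ((s ^ (-n) : (AddMonoid.End M)ˣ) : AddMonoid.End M) = 1 := by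
      rw [← Units.val_mul, ← zpow_add, add_neg_cancel, zpow_zero, Units.val_one]
    exact congrArg (fun T : AddMonoid.End M => T x) h

lemma sp_apply (s : (AddMonoid.End M)ˣ) (n : ℤ) (x : M) :
    sp s n x = ((s ^ n : (AddMonoid.End M)ˣ) : AddMonoid.End M) x := rfl

lemma sp_sp (s : (AddMonoid.End M)ˣ) (n m : ℤ) (x : M) :
    sp s n (sp s m x) = sp s (n + m) x := by
  simp only [sp_apply]
  rw [zpow_add, Units.val_mul]
  rfl

lemma sp_zero (s : (AddMonoid.End M)ˣ) (x : M) : sp s 0 x = x := by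
  rw [sp_apply, zpow_zero, Units.val_one]
  rfl

lemma sp_add (s : (AddMonoid.End M)ˣ) (n : ℤ) (x y : M) :
    sp s n (x + y) = sp s n x + sp s n y := by
  simp only [sp_apply, map_add]

lemma sp_sub (s : (AddMonoid.End M)ˣ) (n : ℤ) (x y : M) :
    sp s n (x - y) = sp s n x - sp s n y := by
  simp only [sp_apply, map_sub]

lemma inv_form {s : (AddMonoid.End M)ˣ} {π : Equiv.Perm M} {n : ℤ} {u : M}
    (h : ∀ x, π x = sp s n x + u) (x : M) : π⁻¹ x = sp s (-n) (x - u) := by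
  rw [Equiv.Perm.inv_eq_iff_eq, h, sp_sp, add_neg_cancel, sp_zero, sub_add_cancel]

/-- the group of the maps `x ↦ s^n x + u` -/
def Aff (s : (AddMonoid.End M)ˣ) : Subgroup (Equiv.Perm M) where
  carrier := {π | ∃ (n : ℤ) (u : M), ∀ x, π x = sp s n x + u}
  one_mem' := ⟨0, 0, fun x => by rw [sp_zero, add_zero]; rfl⟩
  mul_mem' := by
    rintro π ρ ⟨n, u, h⟩ ⟨m, v, k⟩
    refine ⟨n + m, sp s n v + u, fun x => ?_⟩
    rw [Equiv.Perm.mul_apply, h, k, sp_add, sp_sp, add_assoc]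
  inv_mem' := by
    rintro π ⟨n, u, h⟩
    refine ⟨-n, -(sp s (-n) u), fun x => ?_⟩
    rw [inv_form h, sp_sub, sub_eq_add_neg]

/-- the translations by elements of the `j`-th range -/
def Trn (N : AddMonoid.End M) (s : (AddMonoid.End M)ˣ) (j : ℕ) : Subgroup (Aff s) where
  carrier := {π | ∃ u ∈ Rg N j, ∀ x, (π : Equiv.Perm M) x = x + u}
  one_mem' := ⟨0, (Rg N j).zero_mem, fun x => by rw [add_zero]; rfl⟩
  mul_mem' := by
    rintro π ρ ⟨u, hu, h⟩ ⟨v, hv, k⟩
    refine ⟨v + u, (Rg N j).add_mem hv hu, fun x => ?_⟩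
    rw [Subgroup.coe_mul, Equiv.Perm.mul_apply, h, k, add_assoc]
  inv_mem' := by
    rintro π ⟨u, hu, h⟩
    refine ⟨-u, (Rg N j).neg_mem hu, fun x => ?_⟩
    rw [Subgroup.coe_inv, Equiv.Perm.inv_eq_iff_eq, h]
    abel

theorem aff_nilpotent (N : AddMonoid.End M) (s : (AddMonoid.End M)ˣ)
    (hs : (s : AddMonoid.End M) = 1 + N) (k : ℕ) (hN : N ^ k = 0) :
    Group.IsNilpotent (Aff s) := by
  rw [Subgroup.nilpotent_iff_finite_descending_central_series]
  refine ⟨k + 1, fun j => if j = 0 then ⊤ else Trn N s (j - 1), ⟨by simp, ?_⟩, ?_⟩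
  · intro π j hπ γ
    obtain ⟨m, v, hγ⟩ := γ.2
    obtain ⟨n, u, hp⟩ := π.2
    have e0 : ∀ x : M, ((π * γ * π⁻¹ * γ⁻¹ : Aff s) : Equiv.Perm M) x =
        (π : Equiv.Perm M) ((γ : Equiv.Perm M) ((π : Equiv.Perm M)⁻¹
          ((γ : Equiv.Perm M)⁻¹ x))) := fun x => rfl
    have hγi := inv_form hγ
    rcases Nat.eq_zero_or_pos j with hj | hj
    · -- the quotient by the translations is commutative
      subst hj
      have hpi := inv_form hp
      have e1 : ∀ x : M, ((π * γ * π⁻¹ * γ⁻¹ : Aff s) : Equiv.Perm M) x =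
          x + ((π * γ * π⁻¹ * γ⁻¹ : Aff s) : Equiv.Perm M) 0 := by
        intro x
        rw [e0, e0, hp, hp, hγ, hγ, hpi, hpi, hγi, hγi]
        simp only [sp_add, sp_sub, sp_sp]
        have h1 : n + (m + (-n + -m)) = 0 := by ring
        rw [h1]
        simp only [sp_zero]
        abel
      have : (0 : ℕ) + 1 ≠ 0 := Nat.succ_ne_zero 0
      simp only [this, if_false]
      exact ⟨_, by rw [Rg_zero]; exact AddSubgroup.mem_top _, e1⟩
    · obtain ⟨i, rfl⟩ : ∃ i, j = i + 1 := ⟨j - 1, by omega⟩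
      have h2 : i + 1 ≠ 0 := Nat.succ_ne_zero i
      have h3 : i + 1 + 1 ≠ 0 := Nat.succ_ne_zero (i + 1)
      simp only [h2, if_false, Nat.add_sub_cancel] at hπ
      simp only [h3, if_false, Nat.add_sub_cancel]
      obtain ⟨w, hw, hpw⟩ := hπ
      have hpi : ∀ x : M, (π : Equiv.Perm M)⁻¹ x = x - w := by
        intro x
        rw [Equiv.Perm.inv_eq_iff_eq, hpw, sub_add_cancel]
      refine ⟨-(sp s m w - w), (Rg N (i + 1)).neg_mem (zpow_sub s hs m i w hw), fun x => ?_⟩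
      show ((π * γ * π⁻¹ * γ⁻¹ : Aff s) : Equiv.Perm M) x = _
      rw [e0, hpw, hγ, hpi, hγi]
      simp only [sp_sub, sp_sp]
      rw [add_neg_cancel]
      simp only [sp_zero]
      abel
  · have h3 : k + 1 ≠ 0 := Nat.succ_ne_zero k
    simp only [h3, if_false, Nat.add_sub_cancel]
    rw [Subgroup.eq_bot_iff_forall]
    rintro π ⟨u, hu, h⟩
    rw [mem_Rg] at hu
    obtain ⟨x, rfl⟩ := hu
    apply Subtype.ext
    ext y
    rw [h, hN]
    show y + 0 = y
    rw [add_zero]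

end NPK
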