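import Pool.Agent.NPK.Tor
import Pool.Agent.NPG.EndF
import Pool.Agent.PWZ.NilClo

set_option autoImplicit false

/-!
# NPK / Wgt : two powers with a polynomial phase

The averages of `e(Φ n) f_0(V_0^n x) f_1(V_1^n x)`, `Φ` a polynomial phase, are averages of
`F_0((V_0 × A)^n (x, w)) F_1((V_1 × B)^n (x, w))` on the product with the torus of `Tor`; the group
generated by `V_0 × A` and `V_1 × B` is nilpotent.
-/

namespace NPK
open MeasureTheory Filter NP2
open scoped ENNReal Topology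

noncomputable section

/-- the product map -/
def prh (X W : Type) : Equiv.Perm X × Equiv.Perm W →* Equiv.Perm (X × W) where
  toFun p := Equiv.prodCongr p.1 p.2
  map_one' := by
    ext x <;> rfl
  map_mul' p q := by
    ext x <;> rfl

lemma prh_apply {X W : Type} (p : Equiv.Perm X × Equiv.Perm W) (x : X) (w : W) :
    prh X W p (x, w) = (p.1 x, p.2 w) := rfl

lemma prh_zpow {X W : Type} (p : Equiv.Perm X × Equiv.Perm W) (n : ℤ) (x : X) (w : W) :
    (prh X W p ^ n) (x, w) = ((p.1 ^ n) x, (p.2 ^ n) w) := by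
  rw [← map_zpow]
  rfl

lemma MI_prh {X W : Type} [MeasurableSpace X] [MeasurableSpace W] {μ : Measure X} {ν : Measure W}
    [IsProbabilityMeasure μ] [IsProbabilityMeasure ν] {a : Equiv.Perm X} {b : Equiv.Perm W}
    (ha : MI μ a) (hb : MI ν b) : MI (μ.prod ν) (prh X W (a, b)) := by
  refine ⟨ha.1.prod hb.1, ?_⟩
  rw [← map_inv]
  exact ha.2.prod hb.2

lemma nil_sub {G : Type} [Group G] {H K : Subgroup G} (h : H ≤ K) (hK : Group.IsNilpotent K) :
    Group.IsNilpotent H := by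
  have := hK
  refine Subgroup.isNilpotent_of_ker_le_center (Subgroup.inclusion h) ?_
  intro x hx
  rw [MonoidHom.mem_ker] at hx
  have h6 : x = 1 := Subgroup.inclusion_injective h (hx.trans (map_one _).symm)
  rw [h6]
  exact Subgroup.one_mem _

lemma nil_prh {X W : Type} {a b : Equiv.Perm X} {a' b' : Equiv.Perm W}
    (h1 : Group.IsNilpotent (Subgroup.closure {a, b})) {H : Subgroup (Equiv.Perm W)}
    (h2 : Group.IsNilpotent H) (ha : a' ∈ H) (hb : b' ∈ H) :
    Group.IsNilpotent (Subgroup.closure {prh X W (a, a'), prh X W (b, b')}) := by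
  have := h1
  have := h2
  obtain ⟨ψ, hψ⟩ : ∃ ψ : (Subgroup.closure {a, b}) × H →* Equiv.Perm (X × W),
      ∀ p, ψ p = prh X W ((p.1 : Equiv.Perm X), (p.2 : Equiv.Perm W)) :=
    ⟨(prh X W).comp ((Subgroup.closure {a, b}).subtype.prodMap H.subtype), fun p => rfl⟩
  have h3 : Group.IsNilpotent ψ.range :=
    Group.nilpotent_of_surjective ψ.rangeRestrict ψ.rangeRestrict_surjective
  refine nil_sub ?_ h3
  rw [Subgroup.closure_le]
  intro x hx
  simp only [Set.mem_insert_iff, Set.mem_singleton_iff] at hx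
  rcases hx with rfl | rfl
  · exact ⟨(⟨a, Subgroup.subset_closure (by simp)⟩, ⟨a', ha⟩), hψ _⟩
  · exact ⟨(⟨b, Subgroup.subset_closure (by simp)⟩, ⟨b', hb⟩), hψ _⟩

/-- two powers with a polynomial phase -/
theorem wgt (hM : NPG.ModH) (hA : ∀ C, NPG.ThmA C) {X : Type} [MeasurableSpace X] (μ : Measure X)
    [IsProbabilityMeasure μ] (V : Fin 2 → Equiv.Perm X) (hV : ∀ j, MI μ (V j))
    (hn : Group.IsNilpotent (Subgroup.closure {V 0, V 1}))
    (f : Fin 2 → X → ℂ) (hf : ∀ j, MemLp (f j) ∞ μ)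
    (Φ : ℤ → UnitAddCircle) (k : ℕ) (hΦ : df^[k] Φ = 0) :
    ∀ᵐ x ∂μ, ∃ L : ℂ, Tendsto (fun N : ℕ => Pool.PWZ.cav (fun n =>
      (AddCircle.toCircle (Φ n) : ℂ) * ∏ j : Fin 2, f j ((V j ^ n) x)) N) atTop (𝓝 L) := by
  have hΦ' : df^[k + 1] Φ = 0 := by
    rw [Function.iterate_succ_apply', hΦ]
    funext n
    exact sub_self _
  set ν : Measure (TW k) := volume with hν
  have hp1 : IsProbabilityMeasure (volume : Measure UnitAddCircle) :=
    ⟨UnitAddCircle.measure_univ⟩
  have : IsProbabilityMeasure ν := by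
    rw [hν]
    infer_instance
  set A := At k (vv k Φ) with hAdef
  set B := Bt k with hBdef
  set U : Fin 2 → Equiv.Perm (X × TW k) := ![prh X (TW k) (V 0, A), prh X (TW k) (V 1, B)] with hU
  have hU0 : U 0 = prh X (TW k) (V 0, A) := rfl
  have hU1 : U 1 = prh X (TW k) (V 1, B) := rfl
  set g : Fin 2 → X × TW k → ℂ := ![fun p => f 0 p.1 * Ft k p.2,
    fun p => f 1 p.1 * (starRingEnd ℂ) (Ft k p.2)] with hg
  have hMI : ∀ j, MI (μ.prod ν) (U j) := by
    intro j
    fin_cases j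
    · exact MI_prh (hV 0) (MI_At k _)
    · exact MI_prh (hV 1) (MI_Bt k)
  have hgm : ∀ j, MemLp (g j) ∞ (μ.prod ν) := by
    have h1 : ∀ j, MemLp (fun p : X × TW k => f j p.1) ∞ (μ.prod ν) := fun j =>
      (hf j).comp_measurePreserving measurePreserving_fst
    have h2 : MemLp (fun p : X × TW k => Ft k p.2) ∞ (μ.prod ν) := by
      refine memLp_top_of_bound ?_ 1 (Eventually.of_forall fun p => (norm_Ft k _).le)
      exact ((continuous_Ft k).measurable.comp measurable_snd).aestronglyMeasurable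
    have h3 : MemLp (fun p : X × TW k => (starRingEnd ℂ) (Ft k p.2)) ∞ (μ.prod ν) := by
      refine memLp_top_of_bound ?_ 1 (Eventually.of_forall fun p => ?_)
      · exact ((Complex.continuous_conj.comp (continuous_Ft k)).measurable.comp
          measurable_snd).aestronglyMeasurable
      · rw [RCLike.norm_conj, norm_Ft]
    intro j
    fin_cases j
    · exact (h2.mul (h1 0) : MemLp _ ∞ _)
    · exact (h3.mul (h1 1) : MemLp _ ∞ _)
  have hnil : Group.IsNilpotent (Subgroup.closure {U 0, U 1}) := by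
    rw [hU0, hU1]
    exact nil_prh hn (aff_us k) (At_mem k _) (Bt_mem k)
  have h := NPG.fin_pow hM hA (μ.prod ν) U hMI hnil g hgm
  have h2 := Measure.ae_ae_of_ae_prod h
  filter_upwards [h2] with x hx
  obtain ⟨w, L, hL⟩ := hx.exists
  refine ⟨(AddCircle.toCircle (Φ 0) : ℂ) * L, ?_⟩
  refine (hL.const_mul (AddCircle.toCircle (Φ 0) : ℂ)).congr fun N => ?_
  unfold Pool.PWZ.cav
  rw [mul_left_comm, Finset.mul_sum]
  congr 1
  refine Finset.sum_congr rfl fun n _ => ?_
  rw [Fin.prod_univ_two, hU0, hU1, prh_zpow, prh_zpow]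
  simp only [Fin.prod_univ_two]
  show (AddCircle.toCircle (Φ 0) : ℂ) * (f 0 ((V 0 ^ n) x) * Ft k ((A ^ n) w) *
    (f 1 ((V 1 ^ n) x) * (starRingEnd ℂ) (Ft k ((B ^ n) w)))) = _
  have e : (AddCircle.toCircle (Φ n) : ℂ) = (AddCircle.toCircle (Φ 0) : ℂ) *
      (Ft k ((A ^ n) w) * (starRingEnd ℂ) (Ft k ((B ^ n) w))) := by
    rw [hAdef, hBdef, Ft_eq k Φ hΦ', ← Circle.coe_mul, ← AddCircle.toCircle_add]
    congr 2
    abel
  rw [e]
  ring

end

end NPK
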