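import Pool.Agent.NPK.Skw

set_option autoImplicit false

/-!
# NPK / Wgt2 : two powers with a polynomial phase depending on the point
-/

namespace NPK
open MeasureTheory Filter NP2
open scoped ENNReal Topology

noncomputable section

variable {X : Type}

lemma vv_inv {K : Type} (k : ℕ) (Φ : ℤ → K → UnitAddCircle) (a b : K)
    (h : ∀ n, Φ n a = Φ n b) : vv k (fun n => Φ n a) = vv k (fun n => Φ n b) := by
  have e : (fun n => Φ n a) = fun n => Φ n b := funext h
  rw [e]

lemma measurable_df [MeasurableSpace X] {Φ : ℤ → X → UnitAddCircle} (hm : ∀ n, Measurable (Φ n))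
    (a : ℕ) : ∀ n : ℤ, Measurable fun x => df^[a] (fun n => Φ n x) n := by
  induction a with
  | zero => exact hm
  | succ a ih =>
    intro n
    have e : (fun x => df^[a + 1] (fun n => Φ n x) n) = fun x =>
        df^[a] (fun n => Φ n x) (n + 1) - df^[a] (fun n => Φ n x) n := by
      funext x
      rw [Function.iterate_succ_apply']
      rfl
    rw [e]
    exact (ih (n + 1)).sub (ih n)

/-- two powers with a polynomial phase which depends on the point -/
theorem wgt2 (hM : NPG.ModH) (hA : ∀ C, NPG.ThmA C) [MeasurableSpace X] (μ : Measure X)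
    [IsProbabilityMeasure μ] (V : Fin 2 → Equiv.Perm X) (hV : ∀ j, MI μ (V j))
    (hn : Group.IsNilpotent (Subgroup.closure {V 0, V 1}))
    (f : Fin 2 → X → ℂ) (hf : ∀ j, MemLp (f j) ∞ μ)
    (Φ : ℤ → X → UnitAddCircle) (hΦm : ∀ n, Measurable (Φ n))
    (hΦi : ∀ j n x, Φ n (V j x) = Φ n x) (k : ℕ) (hΦ : ∀ x, df^[k] (fun n => Φ n x) = 0) :
    ∀ᵐ x ∂μ, ∃ L : ℂ, Tendsto (fun N : ℕ => Pool.PWZ.cav (fun n =>
      (AddCircle.toCircle (Φ n x) : ℂ) * ∏ j : Fin 2, f j ((V j ^ n) x)) N) atTop (𝓝 L) := by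
  have hΦ' : ∀ x, df^[k + 1] (fun n => Φ n x) = 0 := by
    intro x
    rw [Function.iterate_succ_apply', hΦ x]
    funext n
    exact sub_self _
  obtain ⟨v, hvd⟩ : ∃ v : X → TW k, ∀ x, v x = vv k (fun n => Φ n x) :=
    ⟨fun x => vv k (fun n => Φ n x), fun x => rfl⟩
  have hvm : Measurable v := by
    have e : v = fun x (i : Fin (k + 1)) => df^[(i : ℕ) + 1] (fun n => Φ n x) 0 := by
      funext x
      rw [hvd]
      rfl
    rw [e]
    exact measurable_pi_lambda _ fun i => measurable_df hΦm _ 0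
  have hv : ∀ j x, v (V j x) = v x := by
    intro j x
    rw [hvd, hvd]
    exact vv_inv k Φ _ _ fun n => hΦi j n x
  set ν : Measure (TW k) := volume with hν
  have hp1 : IsProbabilityMeasure (volume : Measure UnitAddCircle) :=
    ⟨UnitAddCircle.measure_univ⟩
  have : IsProbabilityMeasure ν := by
    rw [hν]
    infer_instance
  set U : Fin 2 → Equiv.Perm (X × TW k) := ![U0 (V 0) v, prh X (TW k) (V 1, Bt k)] with hU
  have hU0 : U 0 = U0 (V 0) v := rfl
  have hU1 : U 1 = prh X (TW k) (V 1, Bt k) := rfl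
  set g : Fin 2 → X × TW k → ℂ := ![fun p => f 0 p.1 * Ft k p.2,
    fun p => f 1 p.1 * (starRingEnd ℂ) (Ft k p.2)] with hg
  have hMI : ∀ j, MI (μ.prod ν) (U j) := by
    intro j
    fin_cases j
    · exact MI_U0 (hV 0) hvm
    · exact MI_prh (hV 1) (MI_Bt k)
  have hgm : ∀ j, MemLp (g j) ∞ (μ.prod ν) := by
    have h1 : ∀ j, MemLp (fun p : X × TW k => f j p.1) ∞ (μ.prod ν) := fun j =>
      (hf j).comp_measurePreserving measurePreserving_fst
    have h2 : MemLp (fun p : X × TW k => Ft k p.2) ∞ (μ.prod ν) := by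
      refine memLp_top_of_bound ?_ 1 (Eventually.of_forall fun p => (norm_Ft k _).le)
      exact ((continuous_Ft k).measurable.comp measurable_snd).aestronglyMeasurable
    have h3 : MemLp (fun p : X × TW k => (starRingEnd ℂ) (Ft k p.2)) ∞ (μ.prod ν) := by
      refine memLp_top_of_bound ?_ 1 (Eventually.of_forall fun p => ?_)
      · exact ((Complex.continuous_conj.comp (continuous_Ft k)).measurable.comp
          measurable_snd).aestronglyMeasurable
      · rw [RCLike.norm_conj, norm_Ft]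
    intro j
    fin_cases j
    · exact (h2.mul (h1 0) : MemLp _ ∞ _)
    · exact (h3.mul (h1 1) : MemLp _ ∞ _)
  have hnil : Group.IsNilpotent (Subgroup.closure {U 0, U 1}) := by
    rw [hU0, hU1]
    exact nil_skw hn v (hv 0) (hv 1)
  have hU0n : ∀ (n : ℤ) (x : X) (w : TW k),
      (U 0 ^ n) (x, w) = ((V 0 ^ n) x, (At k (v x) ^ n) w) := by
    intro n x w
    have hstep : ∀ (x : X) (w : TW k), U 0 (x, w) = (V 0 x, At k (v x) w) := fun x w =>
      U0_apply _ _ (hv 0) x w
    have hvn : ∀ n : ℤ, v ((V 0 ^ n) x) = v x := by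
      intro n
      induction n using Int.induction_on with
      | zero => rfl
      | succ n ih => rw [add_comm, zpow_add, zpow_one, Equiv.Perm.mul_apply, hv, ih]
      | pred n ih =>
        have e : V 0 ((V 0 ^ (-(n : ℤ) - 1)) x) = (V 0 ^ (-(n : ℤ))) x := by
          rw [← Equiv.Perm.mul_apply, ← zpow_one_add, add_sub_cancel]
        rw [← ih, ← e, hv]
    induction n using Int.induction_on with
    | zero => rfl
    | succ n ih =>
      rw [add_comm (n : ℤ) 1, zpow_add, zpow_one, Equiv.Perm.mul_apply, ih, hstep, hvn,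
        zpow_add, zpow_add, zpow_one, zpow_one, Equiv.Perm.mul_apply, Equiv.Perm.mul_apply]
    | pred n ih =>
      have e1 : U 0 ((U 0 ^ (-(n : ℤ) - 1)) (x, w)) = (U 0 ^ (-(n : ℤ))) (x, w) := by
        rw [← Equiv.Perm.mul_apply, ← zpow_one_add, add_sub_cancel]
      have e2 : U 0 ((V 0 ^ (-(n : ℤ) - 1)) x, (At k (v x) ^ (-(n : ℤ) - 1)) w) =
          ((V 0 ^ (-(n : ℤ))) x, (At k (v x) ^ (-(n : ℤ))) w) := by
        rw [hstep, hvn, ← Equiv.Perm.mul_apply, ← Equiv.Perm.mul_apply, ← zpow_one_add,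
          ← zpow_one_add, add_sub_cancel]
      exact (U 0).injective (e1.trans (ih.trans e2.symm))
  have h := NPG.fin_pow hM hA (μ.prod ν) U hMI hnil g hgm
  have h2 := Measure.ae_ae_of_ae_prod h
  filter_upwards [h2] with x hx
  obtain ⟨w, L, hL⟩ := hx.exists
  refine ⟨(AddCircle.toCircle (Φ 0 x) : ℂ) * L, ?_⟩
  refine (hL.const_mul (AddCircle.toCircle (Φ 0 x) : ℂ)).congr fun N => ?_
  unfold Pool.PWZ.cav
  rw [mul_left_comm, Finset.mul_sum]
  congr 1
  refine Finset.sum_congr rfl fun n _ => ?_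
  rw [Fin.prod_univ_two, hU0n, hU1, prh_zpow]
  simp only [Fin.prod_univ_two]
  show (AddCircle.toCircle (Φ 0 x) : ℂ) * (f 0 ((V 0 ^ n) x) * Ft k ((At k (v x) ^ n) w) *
    (f 1 ((V 1 ^ n) x) * (starRingEnd ℂ) (Ft k ((Bt k ^ n) w)))) = _
  have e : (AddCircle.toCircle (Φ n x) : ℂ) = (AddCircle.toCircle (Φ 0 x) : ℂ) *
      (Ft k ((At k (v x) ^ n) w) * (starRingEnd ℂ) (Ft k ((Bt k ^ n) w))) := by
    rw [hvd, Ft_eq k _ (hΦ' x), ← Circle.coe_mul, ← AddCircle.toCircle_add]
    congr 2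
    abel
  rw [e]
  ring

end

end NPK
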